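import Pool.Agent.Helper137_UPlus.Grading

set_option linter.unusedSimpArgs false
set_option linter.unusedSectionVars false

namespace Pool.Helper137.UPlus

variable {K : Type*} [Field K] {t : K} [NeZero t]

theorem dA_pr_zero (s : ℕ) (u : U t) : dA t (pr t 0 s u) = 0 := by
  have := fam_ext (ι := ℕ) (fun s => dA t ∘ₗ pr t 0 s) (fun _ => 0)
    (by
      rintro s
      rcases s with _ | s <;> simp)
    (by
      rintro u hu s
      change dA t (pr t 0 s (a t * u)) = 0
      rw [pr_a_zero, map_zero])
    (by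
      rintro u hu s
      change dA t (pr t 0 s (b t * u)) = 0
      rcases s with _ | s
      · simp
      · have := hu s
        change dA t (pr t 0 s u) = 0 at this
        rw [pr_b_succ, dA_b_mul, this, mul_zero, smul_zero])
    s u
  exact this

theorem dA_pr_succ (r s : ℕ) (u : U t) : dA t (pr t (r + 1) s u) = pr t r s (dA t u) := by
  have := fam_ext (ι := ℕ × ℕ) (fun i => dA t ∘ₗ pr t (i.1 + 1) i.2)
    (fun i => pr t i.1 i.2 ∘ₗ dA t)
    (by
      rintro ⟨r, s⟩
      rcases r with _ | r <;> rcases s with _ | s <;> simp)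
    (by
      rintro u hu ⟨r, s⟩
      change dA t (pr t (r + 1) s (a t * u)) = pr t r s (dA t (a t * u))
      rw [pr_a_succ, dA_a_mul, dA_a_mul, map_add, map_smul]
      rcases r with _ | r
      · rw [dA_pr_zero, pr_a_zero, mul_zero]
      · have := hu (r, s)
        change dA t (pr t (r + 1) s u) = pr t r s (dA t u) at this
        rw [this, pr_a_succ])
    (by
      rintro u hu ⟨r, s⟩
      change dA t (pr t (r + 1) s (b t * u)) = pr t r s (dA t (b t * u))
      rw [dA_b_mul, map_smul]
      rcases s with _ | s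
      · simp
      · have := hu (r, s)
        change dA t (pr t (r + 1) s u) = pr t r s (dA t u) at this
        rw [pr_b_succ, pr_b_succ, dA_b_mul, this])
    (r, s) u
  exact this

theorem dB_pr_zero (r : ℕ) (u : U t) : dB t (pr t r 0 u) = 0 := by
  rw [dB_apply, ← pr_tau, dA_pr_zero, map_zero]

theorem dB_pr_succ (r s : ℕ) (u : U t) : dB t (pr t r (s + 1) u) = pr t r s (dB t u) := by
  rw [dB_apply, ← pr_tau, dA_pr_succ, ← pr_tau, ← dB_apply]

theorem eA_pr_zero (s : ℕ) (u : U t) : eA t (pr t 0 s u) = 0 := by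
  rw [eA_apply, ← pr_rev, dA_pr_zero, map_zero]

theorem eA_pr_succ (r s : ℕ) (u : U t) : eA t (pr t (r + 1) s u) = pr t r s (eA t u) := by
  rw [eA_apply, ← pr_rev, dA_pr_succ, ← pr_rev, ← eA_apply]

theorem eB_pr_zero (r : ℕ) (u : U t) : eB t (pr t r 0 u) = 0 := by
  rw [eB_apply, ← pr_rev, dB_pr_zero, map_zero]

theorem eB_pr_succ (r s : ℕ) (u : U t) : eB t (pr t r (s + 1) u) = pr t r s (eB t u) := by
  rw [eB_apply, ← pr_rev, dB_pr_succ, ← pr_rev, ← eB_apply]

variable (t) in
/-- The twisted adjoint action of the first generator. -/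
def ad : U t →ₗ[K] U t :=
  LinearMap.mulLeft K (a t) - (LinearMap.mulRight K (a t)) ∘ₗ (kB t).toLinearMap

theorem ad_apply (u : U t) : ad t u = a t * u - kB t u * a t := rfl

@[simp] theorem ad_one : ad t (1 : U t) = 0 := by rw [ad_apply, map_one]; simp

theorem ad_mul (u v : U t) : ad t (u * v) = ad t u * v + kB t u * ad t v := by
  simp only [ad_apply, map_mul, sub_mul, mul_sub, mul_assoc]
  abel

theorem kB_ad (u : U t) : kB t (ad t u) = t⁻¹ • ad t (kB t u) := by
  simp only [ad_apply, map_sub, map_mul, kB_a, smul_mul_assoc, mul_smul_comm, smul_sub]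

theorem kA_ad (u : U t) : kA t (ad t u) = t • ad t (kA t u) := by
  have ht := NeZero.ne t
  simp only [ad_apply, map_sub, map_mul, kA_a, smul_mul_assoc, mul_smul_comm, smul_sub,
    kA_kB ht, kB_kA ht]

theorem ad3_b : ad t (ad t (ad t (b t))) = 0 := by
  have ht := NeZero.ne t
  have h := serre_AB (cc t)
  change serre (cc t) (a t) (b t) = 0 at h
  rw [← h]
  simp only [ad_apply, map_sub, map_mul, map_smul, kB_a, kB_b, smul_mul_assoc, mul_smul_comm,
    smul_sub, smul_smul, mul_sub, sub_mul, mul_assoc, serre, pow_succ, pow_zero, one_mul]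
  have hcc : ∀ x : U t, cc t • x = (t + 1 + t⁻¹) • x := fun x => rfl
  simp only [hcc]
  match_scalars <;> field_simp <;> ring

theorem dA_ad (u : U t) (hu : dA t u = 0) : dA t (ad t u) = 0 := by
  have ht := NeZero.ne t
  rw [ad_apply, map_sub, dA_a_mul, dA_mul, dA_kB, hu, kA_kB ht]
  simp

theorem eA_ad (u : U t) : eA t (ad t u) = ad t (eA t u) + kA t u - kB t u := by
  have ht := NeZero.ne t
  rw [ad_apply, map_sub, eA_a_mul, eA_mul, eA_kB, eA_a, kA_a, ad_apply]
  simp only [smul_mul_assoc, mul_smul_comm, smul_smul, mul_inv_cancel₀ ht, one_smul, mul_one]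
  abel

variable (t) in
/-- The subalgebra generated by `b`, `ad b`, `ad (ad b)`. -/
def UP : Subalgebra K (U t) := Algebra.adjoin K {b t, ad t (b t), ad t (ad t (b t))}

theorem b_mem : b t ∈ UP t := Algebra.subset_adjoin (by simp)
theorem adb_mem : ad t (b t) ∈ UP t := Algebra.subset_adjoin (by simp)
theorem adadb_mem : ad t (ad t (b t)) ∈ UP t := Algebra.subset_adjoin (by simp)

theorem kB_mem {u : U t} (hu : u ∈ UP t) : kB t u ∈ UP t := by
  have : UP t ≤ (UP t).comap (kB t) := by
    refine Algebra.adjoin_le ?_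
    rintro x hx
    simp only [Set.mem_insert_iff, Set.mem_singleton_iff] at hx
    rcases hx with rfl | rfl | rfl
    · change kB t (b t) ∈ UP t
      rw [kB_b]
      exact (UP t).smul_mem b_mem _
    · change kB t (ad t (b t)) ∈ UP t
      rw [kB_ad, kB_b, map_smul]
      exact (UP t).smul_mem ((UP t).smul_mem adb_mem _) _
    · change kB t (ad t (ad t (b t))) ∈ UP t
      rw [kB_ad, kB_ad, kB_b, map_smul, map_smul, map_smul]
      exact (UP t).smul_mem ((UP t).smul_mem ((UP t).smul_mem adadb_mem _) _) _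
  exact this hu

theorem kA_mem {u : U t} (hu : u ∈ UP t) : kA t u ∈ UP t := by
  have : UP t ≤ (UP t).comap (kA t) := by
    refine Algebra.adjoin_le ?_
    rintro x hx
    simp only [Set.mem_insert_iff, Set.mem_singleton_iff] at hx
    rcases hx with rfl | rfl | rfl
    · change kA t (b t) ∈ UP t
      rw [kA_b]
      exact (UP t).smul_mem b_mem _
    · change kA t (ad t (b t)) ∈ UP t
      rw [kA_ad, kA_b, map_smul]
      exact (UP t).smul_mem ((UP t).smul_mem adb_mem _) _
    · change kA t (ad t (ad t (b t))) ∈ UP t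
      rw [kA_ad, kA_ad, kA_b, map_smul, map_smul, map_smul]
      exact (UP t).smul_mem ((UP t).smul_mem ((UP t).smul_mem adadb_mem _) _) _
  exact this hu

theorem ad_mem {u : U t} (hu : u ∈ UP t) : ad t u ∈ UP t := by
  unfold UP at hu
  induction hu using Algebra.adjoin_induction with
  | mem x hx =>
    simp only [Set.mem_insert_iff, Set.mem_singleton_iff] at hx
    rcases hx with rfl | rfl | rfl
    · exact adb_mem
    · exact adadb_mem
    · rw [ad3_b]; exact (UP t).zero_mem
  | algebraMap r =>
    rw [Algebra.algebraMap_eq_smul_one, map_smul, ad_one, smul_zero]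
    exact (UP t).zero_mem
  | add x y hx hy hx' hy' => rw [map_add]; exact (UP t).add_mem hx' hy'
  | mul x y hx hy hx' hy' =>
    rw [ad_mul]
    exact (UP t).add_mem ((UP t).mul_mem hx' hy) ((UP t).mul_mem (kB_mem hx) hy')

theorem dA_of_mem {u : U t} (hu : u ∈ UP t) : dA t u = 0 := by
  unfold UP at hu
  induction hu using Algebra.adjoin_induction with
  | mem x hx =>
    simp only [Set.mem_insert_iff, Set.mem_singleton_iff] at hx
    rcases hx with rfl | rfl | rfl
    · exact dA_b
    · exact dA_ad _ dA_b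
    · exact dA_ad _ (dA_ad _ dA_b)
  | algebraMap r => rw [Algebra.algebraMap_eq_smul_one, map_smul, dA_one, smul_zero]
  | add x y hx hy hx' hy' => rw [map_add, hx', hy', add_zero]
  | mul x y hx hy hx' hy' => rw [dA_mul, hx', hy', zero_mul, mul_zero, add_zero]

theorem kB_ad_pow (n : ℕ) (u : U t) : (ad t ^ n) (kB t u) = (t ^ n) • kB t ((ad t ^ n) u) := by
  have ht := NeZero.ne t
  induction n with
  | zero => simp
  | succ n ih =>
    rw [pow_succ', Module.End.mul_apply, ih, map_smul, Module.End.mul_apply, kB_ad, smul_smul]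
    congr 1
    field_simp
    ring

theorem ad_nil_mul (n : ℕ) : ∀ p q : ℕ, p + q = n → ∀ u v : U t, (ad t ^ p) u = 0 →
    (ad t ^ q) v = 0 → (ad t ^ (p + q)) (u * v) = 0 := by
  induction n with
  | zero =>
    intro p q hpq u v hu hv
    obtain rfl : p = 0 := by omega
    obtain rfl : q = 0 := by omega
    simp only [pow_zero, Module.End.one_apply] at hu
    simp [hu]
  | succ n ih =>
    intro p q hpq u v hu hv
    rcases p with _ | p
    · simp only [pow_zero, Module.End.one_apply] at hu
      simp [hu]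
    rcases q with _ | q
    · simp only [pow_zero, Module.End.one_apply] at hv
      simp [hv]
    have h1 : (ad t ^ (p + (q + 1))) (ad t u * v) = 0 := by
      apply ih p (q + 1) (by omega)
      · rw [pow_succ, Module.End.mul_apply] at hu; exact hu
      · exact hv
    have h2 : (ad t ^ (p + 1 + q)) (kB t u * ad t v) = 0 := by
      apply ih (p + 1) q (by omega)
      · rw [kB_ad_pow, hu, map_zero, smul_zero]
      · rw [pow_succ, Module.End.mul_apply] at hv; exact hv
    rw [show p + 1 + (q + 1) = (p + (q + 1)) + 1 by ring, pow_succ, Module.End.mul_apply, ad_mul,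
      map_add, h1, zero_add, show p + (q + 1) = p + 1 + q by ring, h2]

theorem ad_nil {u : U t} (hu : u ∈ UP t) : ∃ n, (ad t ^ n) u = 0 := by
  have mono : ∀ (n m : ℕ) (u : U t), (ad t ^ n) u = 0 → n ≤ m → (ad t ^ m) u = 0 := by
    intro n m u h hnm
    obtain ⟨k, rfl⟩ := Nat.exists_eq_add_of_le hnm
    rw [add_comm, pow_add, Module.End.mul_apply, h, map_zero]
  unfold UP at hu
  induction hu using Algebra.adjoin_induction with
  | mem x hx =>
    simp only [Set.mem_insert_iff, Set.mem_singleton_iff] at hx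
    refine ⟨3, ?_⟩
    have h3 : (ad t ^ 3) (b t) = 0 := by
      simp only [pow_succ, pow_zero, one_mul, Module.End.mul_apply]
      exact ad3_b
    rcases hx with rfl | rfl | rfl
    · exact h3
    · rw [← Module.End.mul_apply, ← pow_succ, pow_succ', Module.End.mul_apply, h3, map_zero]
    · rw [← Module.End.mul_apply, ← pow_succ, ← Module.End.mul_apply, ← pow_succ, pow_succ',
        Module.End.mul_apply, pow_succ', Module.End.mul_apply, h3, map_zero, map_zero]
  | algebraMap r =>
    exact ⟨1, by rw [pow_one, Algebra.algebraMap_eq_smul_one, map_smul, ad_one, smul_zero]⟩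
  | add x y hx hy hx' hy' =>
    obtain ⟨n, hn⟩ := hx'
    obtain ⟨m, hm⟩ := hy'
    refine ⟨max n m, ?_⟩
    rw [map_add, mono n _ x hn (le_max_left _ _), mono m _ y hm (le_max_right _ _), add_zero]
  | mul x y hx hy hx' hy' =>
    obtain ⟨n, hn⟩ := hx'
    obtain ⟨m, hm⟩ := hy'
    exact ⟨n + m, ad_nil_mul _ n m rfl x y hn hm⟩

end Pool.Helper137.UPlus
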