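import Pool.Agent.Helper137_UPlus.Coprod

set_option linter.unusedSimpArgs false
set_option linter.unusedSectionVars false
set_option linter.unnecessarySeqFocus false
set_option linter.unreachableTactic false
set_option linter.unusedTactic false

namespace Pool.Helper137.UPlus

open scoped TensorProduct

variable {K : Type*} [Field K] (t : K)

/-- The antipode operator of `a`. -/
def TA : Module.End K (U t) := -(LinearMap.mulRight K (a t) ∘ₗ (kA t).toLinearMap)
/-- The antipode operator of `b`. -/
def TB : Module.End K (U t) := -(LinearMap.mulRight K (b t) ∘ₗ (kB t).toLinearMap)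

variable {t}

theorem TA_apply (u : U t) : TA t u = -(kA t u * a t) := rfl
theorem TB_apply (u : U t) : TB t u = -(kB t u * b t) := rfl

theorem serre_T1 (ht : t ≠ 0) : serre (cc t) (TA t) (TB t) = 0 := by
  refine LinearMap.ext fun u => ?_
  have h := congrArg (fun z => -(kA t (kA t u) * z)) (serre_AB (cc t))
  have h2 : serre (cc t) (TA t) (TB t) u = -(kA t (kA t u) * serre (cc t) (a t) (b t)) := by
    simp only [serre, pow_succ, pow_zero, one_mul, LinearMap.sub_apply, LinearMap.add_apply,
      LinearMap.smul_apply, Module.End.mul_apply, TA_apply, TB_apply, map_neg, map_mul, kA_a, kA_b,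
      kB_a, kB_b, kA_kB ht, kB_kA ht, mul_assoc, smul_mul_assoc, mul_smul_comm, smul_smul,
      mul_sub, mul_add, smul_neg, neg_mul, mul_neg, neg_neg, map_smul]
    have hcc : ∀ x : U t, cc t • x = (t + 1 + t⁻¹) • x := fun x => rfl
    have hcc2 : ∀ (c : K) (x : U t), (cc t * c) • x = ((t + 1 + t⁻¹) * c) • x := fun c x => rfl
    simp only [hcc, hcc2]
    match_scalars <;> field_simp <;> ring
  rw [h2, show serre (cc t) (a t) (b t) = 0 from serre_AB _]
  simp

theorem serre_T2 (ht : t ≠ 0) : serre (cc t) (TB t) (TA t) = 0 := by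
  refine LinearMap.ext fun u => ?_
  have h2 : serre (cc t) (TB t) (TA t) u = -(kB t (kB t u) * serre (cc t) (b t) (a t)) := by
    simp only [serre, pow_succ, pow_zero, one_mul, LinearMap.sub_apply, LinearMap.add_apply,
      LinearMap.smul_apply, Module.End.mul_apply, TA_apply, TB_apply, map_neg, map_mul, kA_a, kA_b,
      kB_a, kB_b, kA_kB ht, kB_kA ht, mul_assoc, smul_mul_assoc, mul_smul_comm, smul_smul,
      mul_sub, mul_add, smul_neg, neg_mul, mul_neg, neg_neg, map_smul]
    have hcc : ∀ x : U t, cc t • x = (t + 1 + t⁻¹) • x := fun x => rfl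
    have hcc2 : ∀ (c : K) (x : U t), (cc t * c) • x = ((t + 1 + t⁻¹) * c) • x := fun c x => rfl
    simp only [hcc, hcc2]
    match_scalars <;> field_simp <;> ring
  rw [h2, show serre (cc t) (b t) (a t) = 0 from serre_BA _]
  simp

variable [NeZero t]

variable (t) in
/-- The antipode as a representation. -/
def theta : U t →ₐ[K] Module.End K (U t) :=
  lift (TA t) (TB t) (serre_T1 (NeZero.ne t)) (serre_T2 (NeZero.ne t))

variable (t) in
/-- The antipode. -/
def anti : U t →ₗ[K] U t where
  toFun u := theta t u 1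
  map_add' u v := by simp
  map_smul' c u := by simp

@[simp] theorem anti_one : anti t (1 : U t) = 1 := by
  change theta t 1 1 = 1
  rw [map_one (theta t), Module.End.one_apply]

theorem anti_a_mul (u : U t) : anti t (a t * u) = -(kA t (anti t u) * a t) := by
  change theta t (a t * u) 1 = _
  rw [map_mul, Module.End.mul_apply, show theta t (a t) = TA t from lift_A _ _ _ _, TA_apply]
  rfl

theorem anti_b_mul (u : U t) : anti t (b t * u) = -(kB t (anti t u) * b t) := by
  change theta t (b t * u) 1 = _
  rw [map_mul, Module.End.mul_apply, show theta t (b t) = TB t from lift_B _ _ _ _, TB_apply]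
  rfl

theorem anti_kA (u : U t) : anti t (kA t u) = kA t (anti t u) := by
  have ht := NeZero.ne t
  have : anti t ∘ₗ (kA t).toLinearMap = (kA t).toLinearMap ∘ₗ anti t := by
    apply lin_ext
    · simp
    · intro u hu
      simp only [LinearMap.comp_apply, AlgHom.toLinearMap_apply] at hu ⊢
      rw [map_mul, kA_a, smul_mul_assoc, map_smul, anti_a_mul, hu, anti_a_mul, map_neg, map_mul,
        kA_a, mul_smul_comm, smul_neg]
    · intro u hu
      simp only [LinearMap.comp_apply, AlgHom.toLinearMap_apply] at hu ⊢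
      rw [map_mul, kA_b, smul_mul_assoc, map_smul, anti_b_mul, hu, anti_b_mul, map_neg, map_mul,
        kA_b, mul_smul_comm, smul_neg, kA_kB ht, kB_kA ht]
  exact LinearMap.congr_fun this u

theorem anti_kB (u : U t) : anti t (kB t u) = kB t (anti t u) := by
  have ht := NeZero.ne t
  have h := anti_kA (kB t u)
  rw [kA_kB ht] at h
  rw [h, kB_kA ht]

variable (t) in
/-- The map `u ⊗ v ↦ S(u) v`. -/
def mS : U t ⊗[K] U t →ₗ[K] U t := TensorProduct.lift (LinearMap.mul K (U t) ∘ₗ anti t)

theorem mS_tmul (u v : U t) : mS t (u ⊗ₜ v) = anti t u * v := by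
  simp [mS]

theorem mS_a (w : U t ⊗[K] U t) : mS t (XA t w + YA t w) = 0 := by
  have : mS t ∘ₗ (XA t + YA t) = 0 := by
    refine TensorProduct.ext' fun u v => ?_
    simp only [LinearMap.comp_apply, LinearMap.add_apply, XA_tmul, YA_tmul, map_add, mS_tmul,
      anti_a_mul, anti_kA, LinearMap.zero_apply, neg_mul, mul_assoc, neg_add_cancel]
  exact LinearMap.congr_fun this w

theorem mS_b (w : U t ⊗[K] U t) : mS t (XB t w + YB t w) = 0 := by
  have : mS t ∘ₗ (XB t + YB t) = 0 := by
    refine TensorProduct.ext' fun u v => ?_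
    simp only [LinearMap.comp_apply, LinearMap.add_apply, XB_tmul, YB_tmul, map_add, mS_tmul,
      anti_b_mul, anti_kB, LinearMap.zero_apply, neg_mul, mul_assoc, neg_add_cancel]
  exact LinearMap.congr_fun this w

theorem mS_cop (u : U t) : mS t (cop t u) = pr t 0 0 u := by
  have : mS t ∘ₗ cop t = pr t 0 0 := by
    apply lin_ext
    · simp only [LinearMap.comp_apply]
      rw [cop_one, mS_tmul, anti_one, one_mul, pr_one_zero]
    · intro u _
      simp only [LinearMap.comp_apply]
      change mS t (cop t (a t * u)) = pr t 0 0 (a t * u)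
      rw [cop_a_mul, mS_a, pr_a_zero]
    · intro u _
      simp only [LinearMap.comp_apply]
      change mS t (cop t (b t * u)) = pr t 0 0 (b t * u)
      rw [cop_b_mul, mS_b, pr_b_zero]
  exact LinearMap.congr_fun this u

variable (t) in
/-- The scalar by which the antipode differs from `rev` in bidegree `(r, s)`. -/
def cf (r s : ℕ) : K := (-1) ^ (r + s) * (t ^ (r.choose 2 + s.choose 2) * t⁻¹ ^ (r * s))

theorem cf_succ1 (r s : ℕ) : cf t (r + 1) s = -(t ^ r * t⁻¹ ^ s) * cf t r s := by
  unfold cf
  rw [Nat.choose_succ_succ' r 1, Nat.choose_one_right]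
  ring

theorem cf_succ2 (r s : ℕ) : cf t r (s + 1) = -(t ^ s * t⁻¹ ^ r) * cf t r s := by
  unfold cf
  rw [Nat.choose_succ_succ' s 1, Nat.choose_one_right]
  ring

theorem cf_diag (n : ℕ) : cf t n n = t⁻¹ ^ n := by
  have ht := NeZero.ne t
  induction n with
  | zero => simp [cf]
  | succ n ih =>
    rw [cf_succ1, cf_succ2, ih]
    have h : t ^ n * t⁻¹ ^ n = 1 := by rw [← mul_pow, mul_inv_cancel₀ ht, one_pow]
    linear_combination (t ^ n * t⁻¹ ^ n * t⁻¹ ^ (n + 1) + t⁻¹ ^ (n + 1)) * h

theorem anti_pr (r s : ℕ) (u : U t) : anti t (pr t r s u) = cf t r s • rev t (pr t r s u) := by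
  have := fam_ext (ι := ℕ × ℕ) (fun i => anti t ∘ₗ pr t i.1 i.2)
    (fun i => cf t i.1 i.2 • (rev t ∘ₗ pr t i.1 i.2))
    (by
      rintro ⟨r, s⟩
      rcases r with _ | r <;> rcases s with _ | s <;> simp [cf])
    (by
      rintro u hu ⟨r, s⟩
      change anti t (pr t r s (a t * u)) = cf t r s • rev t (pr t r s (a t * u))
      rcases r with _ | r
      · simp
      · have := hu (r, s)
        change anti t (pr t r s u) = cf t r s • rev t (pr t r s u) at this
        rw [pr_a_succ, anti_a_mul, this, map_smul, ← rev_kA, kA_pr, map_smul, rev_mul, rev_a,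
          smul_smul, smul_mul_assoc, cf_succ1, ← neg_smul]
        congr 1; ring)
    (by
      rintro u hu ⟨r, s⟩
      change anti t (pr t r s (b t * u)) = cf t r s • rev t (pr t r s (b t * u))
      rcases s with _ | s
      · simp
      · have := hu (r, s)
        change anti t (pr t r s u) = cf t r s • rev t (pr t r s u) at this
        rw [pr_b_succ, anti_b_mul, this, map_smul, ← rev_kB, kB_pr, map_smul, rev_mul, rev_b,
          smul_smul, smul_mul_assoc, cf_succ2, ← neg_smul]
        congr 1; ring)
    (r, s) u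
  exact this

end Pool.Helper137.UPlus
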