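import Mathlib

namespace Pool.Helper137.UPlus

open scoped TensorProduct

section SerreDef

variable {K R : Type*} [Field K] [Ring R] [Algebra K R]

/-- The cubic Serre expression `x³y - c x²yx + c xyx² - yx³`. -/
def serre (c : K) (x y : R) : R :=
  x ^ 3 * y - c • (x ^ 2 * y * x) + c • (x * y * x ^ 2) - y * x ^ 3

theorem map_serre {S : Type*} [Ring S] [Algebra K S] (f : R →ₐ[K] S) (c : K) (x y : R) :
    f (serre c x y) = serre c (f x) (f y) := by
  simp [serre]

theorem serre_smul (c a b : K) (x y : R) :
    serre c (a • x) (b • y) = (a ^ 3 * b) • serre c x y := by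
  simp only [serre, smul_pow, smul_mul_assoc, mul_smul_comm, smul_sub, smul_add, smul_smul]
  match_scalars <;> ring

end SerreDef

/-- The two Serre relations on the free algebra with generators `true`, `false`. -/
inductive SerreRel (K : Type*) [Field K] (c : K) : FreeAlgebra K Bool → FreeAlgebra K Bool → Prop
  | one : SerreRel K c (serre c (FreeAlgebra.ι K true) (FreeAlgebra.ι K false)) 0
  | two : SerreRel K c (serre c (FreeAlgebra.ι K false) (FreeAlgebra.ι K true)) 0

/-- The algebra with two generators and the two Serre relations with parameter `c`. -/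
def UC (K : Type*) [Field K] (c : K) : Type _ := RingQuot (SerreRel K c)

section UCsec

variable {K : Type*} [Field K] {c : K}

instance : Ring (UC K c) := inferInstanceAs (Ring (RingQuot (SerreRel K c)))
instance : Algebra K (UC K c) := inferInstanceAs (Algebra K (RingQuot (SerreRel K c)))

/-- The quotient map. -/
def mkHom (K : Type*) [Field K] (c : K) : FreeAlgebra K Bool →ₐ[K] UC K c :=
  RingQuot.mkAlgHom K (SerreRel K c)

/-- The first generator. -/
def A (c : K) : UC K c := mkHom K c (FreeAlgebra.ι K true)

/-- The second generator. -/
def B (c : K) : UC K c := mkHom K c (FreeAlgebra.ι K false)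

theorem serre_AB (c : K) : serre c (A c) (B c) = 0 := by
  have h := RingQuot.mkAlgHom_rel K (SerreRel.one (K := K) (c := c))
  rw [map_serre] at h
  rw [map_zero] at h
  exact h

theorem serre_BA (c : K) : serre c (B c) (A c) = 0 := by
  have h := RingQuot.mkAlgHom_rel K (SerreRel.two (K := K) (c := c))
  rw [map_serre] at h
  rw [map_zero] at h
  exact h

variable {R : Type*} [Ring R] [Algebra K R]

/-- The universal property. -/
def lift (x y : R) (h1 : serre c x y = 0) (h2 : serre c y x = 0) : UC K c →ₐ[K] R :=
  RingQuot.liftAlgHom K ⟨FreeAlgebra.lift K (fun b => if b then x else y), by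
    intro u v huv
    cases huv with
    | one => rw [map_serre]; simpa using h1
    | two => rw [map_serre]; simpa using h2⟩

@[simp] theorem lift_A (x y : R) (h1 : serre c x y = 0) (h2 : serre c y x = 0) :
    lift x y h1 h2 (A c) = x := by
  unfold lift A mkHom
  erw [RingQuot.liftAlgHom_mkAlgHom_apply]
  simp

@[simp] theorem lift_B (x y : R) (h1 : serre c x y = 0) (h2 : serre c y x = 0) :
    lift x y h1 h2 (B c) = y := by
  unfold lift B mkHom
  erw [RingQuot.liftAlgHom_mkAlgHom_apply]
  simp

theorem mkHom_surjective : Function.Surjective (mkHom K c) :=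
  RingQuot.mkAlgHom_surjective K (SerreRel K c)

/-- Induction principle: a subspace containing `1` and stable under left multiplication by the
two generators is everything. -/
theorem ind (S : Submodule K (UC K c)) (h1 : (1 : UC K c) ∈ S)
    (hA : ∀ u ∈ S, A c * u ∈ S) (hB : ∀ u ∈ S, B c * u ∈ S) (u : UC K c) : u ∈ S := by
  obtain ⟨w, rfl⟩ := mkHom_surjective u
  have key : ∀ w : FreeAlgebra K Bool, ∀ s ∈ S, mkHom K c w * s ∈ S := by
    intro w
    induction w using FreeAlgebra.induction with
    | grade0 r =>
      intro s hs
      rw [AlgHom.commutes, ← Algebra.smul_def]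
      exact S.smul_mem r hs
    | grade1 x =>
      intro s hs
      cases x with
      | true => exact hA s hs
      | false => exact hB s hs
    | mul a b ha hb =>
      intro s hs
      rw [map_mul, mul_assoc]
      exact ha _ (hb _ hs)
    | add a b ha hb =>
      intro s hs
      rw [map_add, add_mul]
      exact S.add_mem (ha _ hs) (hb _ hs)
  simpa using key w 1 h1

/-- Two linear maps which agree at `1` and whose agreement propagates under left multiplication
by the generators are equal. -/
theorem lin_ext {V : Type*} [AddCommGroup V] [Module K V] (f g : UC K c →ₗ[K] V)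
    (h1 : f 1 = g 1) (hA : ∀ u, f u = g u → f (A c * u) = g (A c * u))
    (hB : ∀ u, f u = g u → f (B c * u) = g (B c * u)) : f = g := by
  ext u
  exact ind (LinearMap.eqLocus f g) h1 hA hB u

end UCsec

end Pool.Helper137.UPlus
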