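import Pool.Agent.Helper137_UPlus.Main

set_option linter.unusedSimpArgs false
set_option linter.unusedSectionVars false

namespace Pool.Helper137.UPlus

variable {K : Type*} [Field K] {t : K} [NeZero t]

theorem dA_pow_a_mul (z : U t) (n : ℕ) : (dA t ^ (n + 1)) (a t * z) =
    (∑ i ∈ Finset.range (n + 1), t ^ i) • (dA t ^ n) z +
      t ^ (n + 1) • (a t * (dA t ^ (n + 1)) z) := by
  induction n with
  | zero => simp [dA_a_mul]
  | succ n ih =>
    rw [pow_succ' (dA t) (n + 1), Module.End.mul_apply, ih, map_add, map_smul, map_smul, dA_a_mul,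
      geom_sum_succ (n := n + 1), ← Module.End.mul_apply, ← pow_succ', ← Module.End.mul_apply,
      ← pow_succ', geom_sum_succ (n := n)]
    have h : t ^ (n + 1) + ∑ i ∈ Finset.range (n + 1), t ^ i =
        t * ∑ i ∈ Finset.range (n + 1), t ^ i + 1 := by
      rw [← geom_sum_succ (n := n + 1), Finset.sum_range_succ (n := n + 1), add_comm]
    rw [← geom_sum_succ (n := n), ← h]
    simp only [smul_add, smul_smul, add_smul, ← pow_succ]
    abel

theorem dA_pow_mul_a (z : U t) (n : ℕ) : (dA t ^ (n + 1)) (z * a t) =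
    (∑ i ∈ Finset.range (n + 1), t ^ i) • kA t ((dA t ^ n) z) + (dA t ^ (n + 1)) z * a t := by
  induction n with
  | zero => simp [dA_mul, add_comm]
  | succ n ih =>
    rw [pow_succ' (dA t) (n + 1), Module.End.mul_apply, ih, map_add, map_smul, dA_kA, dA_mul, dA_a,
      mul_one, geom_sum_succ (n := n + 1), ← Module.End.mul_apply, ← pow_succ',
      ← Module.End.mul_apply, ← pow_succ', smul_smul, add_smul, one_smul, mul_comm t]
    abel

theorem dA_pow_pr (r s : ℕ) : ∀ u : U t, (dA t ^ (r + 1)) (pr t r s u) = 0 := by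
  induction r with
  | zero => intro u; rw [zero_add, pow_one]; exact dA_pr_zero _ _
  | succ r ih => intro u; rw [pow_succ, Module.End.mul_apply, dA_pr_succ]; exact ih _

theorem kA_dA_pow (z : U t) (c : K) (hz : kA t z = c • z) (n : ℕ) :
    t ^ n • kA t ((dA t ^ n) z) = c • (dA t ^ n) z := by
  induction n with
  | zero => simpa using hz
  | succ n ih =>
    have h := congrArg (dA t) ih
    rw [map_smul, map_smul, dA_kA, smul_smul, ← pow_succ, ← Module.End.mul_apply,
      ← pow_succ'] at h
    exact h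

theorem pow_inj (hroot : ∀ n : ℕ, 0 < n → t ^ n ≠ 1) {m n : ℕ} (h : t ^ m = t ^ n) : m = n := by
  have ht := NeZero.ne t
  wlog hmn : m ≤ n generalizing m n
  · exact (this h.symm (by omega)).symm
  obtain ⟨k, rfl⟩ := Nat.exists_eq_add_of_le hmn
  by_contra hne
  rw [pow_add] at h
  have h1 : t ^ k = 1 := by
    have := mul_left_cancel₀ (pow_ne_zero m ht) (h.symm.trans (mul_one _).symm)
    exact this
  exact hroot k (by omega) h1

/-- A nonzero homogeneous element commuting with `a`. -/
theorem commute_step (hroot : ∀ n : ℕ, 0 < n → t ^ n ≠ 1) (r s : ℕ) (u : U t)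
    (hc : a t * pr t r s u = pr t r s u * a t) (hne : pr t r s u ≠ 0) :
    s ≤ r ∧ (r = s → dA t (pr t r s u) = 0) := by
  have ht := NeZero.ne t
  classical
  set z := pr t r s u with hz
  have hex : ∃ n, (dA t ^ n) z = 0 := ⟨r + 1, dA_pow_pr r s u⟩
  obtain ⟨n, hn⟩ : ∃ n, Nat.find hex = n + 1 := by
    refine Nat.exists_eq_succ_of_ne_zero fun h0 => hne ?_
    have := Nat.find_spec hex
    rw [h0, pow_zero, Module.End.one_apply] at this
    exact this
  have h1 : (dA t ^ (n + 1)) z = 0 := by rw [← hn]; exact Nat.find_spec hex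
  have h2 : (dA t ^ n) z ≠ 0 := Nat.find_min hex (by omega)
  have h3 := congrArg (dA t ^ (n + 1)) hc
  rw [dA_pow_a_mul, dA_pow_mul_a, h1, mul_zero, zero_mul, smul_zero, add_zero, add_zero] at h3
  have h4 : kA t ((dA t ^ n) z) = (dA t ^ n) z :=
    (smul_right_injective (U t) (brack_ne hroot n) h3).symm
  have h5 := kA_dA_pow z (t ^ r * t⁻¹ ^ s) (kA_pr r s u) n
  rw [h4] at h5
  have h6 : t ^ n = t ^ r * t⁻¹ ^ s := by
    have : (t ^ n - t ^ r * t⁻¹ ^ s) • (dA t ^ n) z = 0 := by rw [sub_smul, h5, sub_self]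
    exact sub_eq_zero.mp ((smul_eq_zero.mp this).resolve_right h2)
  have h7 : t ^ (n + s) = t ^ r := by
    rw [pow_add, h6, mul_assoc, ← mul_pow, inv_mul_cancel₀ ht, one_pow, mul_one]
  have h8 := pow_inj hroot h7
  refine ⟨by omega, fun hrs => ?_⟩
  have hn0 : n = 0 := by omega
  subst hn0
  simpa using h1

/-- A homogeneous element of positive degree commuting with both generators is zero. -/
theorem central_pr (hroot : ∀ n : ℕ, 0 < n → t ^ n ≠ 1) (r s : ℕ) (h : 1 ≤ r + s) (u : U t)
    (hca : a t * pr t r s u = pr t r s u * a t) (hcb : b t * pr t r s u = pr t r s u * b t) :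
    pr t r s u = 0 := by
  by_contra hne
  obtain ⟨h1, h2⟩ := commute_step hroot r s u hca hne
  have hτ : tau t (pr t r s u) = pr t s r (tau t u) := (pr_tau s r u).symm
  have hne' : pr t s r (tau t u) ≠ 0 := by
    intro h0
    rw [← hτ] at h0
    exact hne (by rw [← tau_tau (pr t r s u), h0, map_zero])
  have hc' : a t * pr t s r (tau t u) = pr t s r (tau t u) * a t := by
    have := congrArg (tau t) hcb
    rwa [map_mul, map_mul, tau_b, hτ] at this
  obtain ⟨h3, h4⟩ := commute_step hroot s r (tau t u) hc' hne'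
  have hrs : r = s := by omega
  have h5 := h2 hrs
  have h6 := h4 hrs.symm
  rw [← hτ, dA_tau] at h6
  have h7 : dB t (pr t r s u) = 0 := by
    rw [← tau_tau (dB t (pr t r s u)), h6, map_zero]
  exact hne (nondeg hroot (r + s) r s rfl h u h5 h7)

theorem pr_comm_a {z : U t} (h : a t * z = z * a t) (r s : ℕ) :
    a t * pr t r s z = pr t r s z * a t := by
  rw [← pr_a_succ, ← pr_mul_a_succ, h]

theorem pr_comm_b {z : U t} (h : b t * z = z * b t) (r s : ℕ) :
    b t * pr t r s z = pr t r s z * b t := by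
  rw [← pr_b_succ, ← pr_mul_b_succ, h]

/-- An element commuting with both generators is a scalar. -/
theorem central_scalar (hroot : ∀ n : ℕ, 0 < n → t ^ n ≠ 1) {z : U t}
    (ha : a t * z = z * a t) (hb : b t * z = z * b t) : ∃ c : K, z = c • 1 := by
  obtain ⟨c, hc⟩ := pr_zero_zero z
  refine ⟨c, ?_⟩
  rw [← hc, ← sub_eq_zero]
  apply eq_zero_of_pr
  intro p q
  rw [map_sub, pr_pr]
  by_cases h0 : p = 0 ∧ q = 0
  · obtain ⟨rfl, rfl⟩ := h0
    rw [if_pos (by simp), sub_self]
  · rw [if_neg h0, sub_zero]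
    exact central_pr hroot p q (by omega) z (pr_comm_a ha p q) (pr_comm_b hb p q)

variable (t) in
/-- The augmentation. -/
def aug : U t →ₐ[K] K := lift 0 0 (by simp [serre]) (by simp [serre])

instance : Nontrivial (U t) := by
  refine ⟨⟨1, 0, fun h => ?_⟩⟩
  have := congrArg (aug t) h
  rw [map_one, map_zero] at this
  exact one_ne_zero this

end Pool.Helper137.UPlus
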