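import Pool.Agent.Helper137_UPlus.Kernel

set_option linter.unusedSimpArgs false
set_option linter.unusedSectionVars false
set_option linter.unnecessarySeqFocus false

namespace Pool.Helper137.UPlus

open scoped TensorProduct

section SerreAdd

variable {K R : Type*} [Field K] [Ring R] [Algebra K R]

theorem serre_add (t : K) (ht : t ≠ 0) (x x' y y' : R) (h1 : x' * x = t • (x * x'))
    (h2 : y' * y = t • (y * y')) (h3 : x' * y = t⁻¹ • (y * x')) (h4 : y' * x = t⁻¹ • (x * y')) :
    serre (cc t) (x + x') (y + y') = serre (cc t) x y + serre (cc t) x' y' := by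
  have h1' : ∀ w, x' * (x * w) = t • (x * (x' * w)) := fun w => by
    rw [← mul_assoc, h1, smul_mul_assoc, mul_assoc]
  have h2' : ∀ w, y' * (y * w) = t • (y * (y' * w)) := fun w => by
    rw [← mul_assoc, h2, smul_mul_assoc, mul_assoc]
  have h3' : ∀ w, x' * (y * w) = t⁻¹ • (y * (x' * w)) := fun w => by
    rw [← mul_assoc, h3, smul_mul_assoc, mul_assoc]
  have h4' : ∀ w, y' * (x * w) = t⁻¹ • (x * (y' * w)) := fun w => by
    rw [← mul_assoc, h4, smul_mul_assoc, mul_assoc]
  simp only [serre, pow_succ, pow_zero, one_mul, mul_assoc, mul_add, add_mul, h1, h2, h3, h4,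
    h1', h2', h3', h4', smul_mul_assoc, mul_smul_comm, smul_smul, smul_add]
  have hcc : ∀ x : R, cc t • x = (t + 1 + t⁻¹) • x := fun x => rfl
  have hcc2 : ∀ (c : K) (x : R), (cc t * c) • x = ((t + 1 + t⁻¹) * c) • x := fun c x => rfl
  simp only [hcc, hcc2]
  match_scalars <;> field_simp <;> ring

end SerreAdd

variable {K : Type*} [Field K] (t : K)

/-- First half of the coproduct action of `a`. -/
def XA : Module.End K (U t ⊗[K] U t) := TensorProduct.map (LinearMap.mulLeft K (a t)) LinearMap.id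
/-- Second half of the coproduct action of `a`. -/
def YA : Module.End K (U t ⊗[K] U t) :=
  TensorProduct.map (kA t).toLinearMap (LinearMap.mulLeft K (a t))
/-- First half of the coproduct action of `b`. -/
def XB : Module.End K (U t ⊗[K] U t) := TensorProduct.map (LinearMap.mulLeft K (b t)) LinearMap.id
/-- Second half of the coproduct action of `b`. -/
def YB : Module.End K (U t ⊗[K] U t) :=
  TensorProduct.map (kB t).toLinearMap (LinearMap.mulLeft K (b t))

variable {t}

theorem XA_tmul (u v : U t) : XA t (u ⊗ₜ v) = (a t * u) ⊗ₜ v := rfl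
theorem YA_tmul (u v : U t) : YA t (u ⊗ₜ v) = (kA t u) ⊗ₜ (a t * v) := rfl
theorem XB_tmul (u v : U t) : XB t (u ⊗ₜ v) = (b t * u) ⊗ₜ v := rfl
theorem YB_tmul (u v : U t) : YB t (u ⊗ₜ v) = (kB t u) ⊗ₜ (b t * v) := rfl

theorem YA_XA : YA t * XA t = t • (XA t * YA t) := by
  refine TensorProduct.ext' fun u v => ?_
  simp only [Module.End.mul_apply, LinearMap.smul_apply, XA_tmul, YA_tmul, map_mul, kA_a,
    smul_mul_assoc, TensorProduct.smul_tmul']

theorem YB_XB : YB t * XB t = t • (XB t * YB t) := by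
  refine TensorProduct.ext' fun u v => ?_
  simp only [Module.End.mul_apply, LinearMap.smul_apply, XB_tmul, YB_tmul, map_mul, kB_b,
    smul_mul_assoc, TensorProduct.smul_tmul']

theorem YA_XB : YA t * XB t = t⁻¹ • (XB t * YA t) := by
  refine TensorProduct.ext' fun u v => ?_
  simp only [Module.End.mul_apply, LinearMap.smul_apply, XB_tmul, YA_tmul, map_mul, kA_b,
    smul_mul_assoc, TensorProduct.smul_tmul']

theorem YB_XA : YB t * XA t = t⁻¹ • (XA t * YB t) := by
  refine TensorProduct.ext' fun u v => ?_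
  simp only [Module.End.mul_apply, LinearMap.smul_apply, XA_tmul, YB_tmul, map_mul, kB_a,
    smul_mul_assoc, TensorProduct.smul_tmul']

theorem serre_X1 : serre (cc t) (XA t) (XB t) = 0 := by
  refine TensorProduct.ext' fun u v => ?_
  have h := congrArg (fun z => (z * u) ⊗ₜ[K] v) (serre_AB (cc t))
  simp only [serre, pow_succ, pow_zero, one_mul, sub_mul, add_mul, smul_mul_assoc, mul_assoc,
    zero_mul, TensorProduct.sub_tmul, TensorProduct.add_tmul, TensorProduct.zero_tmul,
    ← TensorProduct.smul_tmul'] at h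
  simp only [serre, pow_succ, pow_zero, one_mul, LinearMap.sub_apply, LinearMap.add_apply,
    LinearMap.smul_apply, Module.End.mul_apply, LinearMap.zero_apply, XA_tmul, XB_tmul]
  exact h

theorem serre_X2 : serre (cc t) (XB t) (XA t) = 0 := by
  refine TensorProduct.ext' fun u v => ?_
  have h := congrArg (fun z => (z * u) ⊗ₜ[K] v) (serre_BA (cc t))
  simp only [serre, pow_succ, pow_zero, one_mul, sub_mul, add_mul, smul_mul_assoc, mul_assoc,
    zero_mul, TensorProduct.sub_tmul, TensorProduct.add_tmul, TensorProduct.zero_tmul,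
    ← TensorProduct.smul_tmul'] at h
  simp only [serre, pow_succ, pow_zero, one_mul, LinearMap.sub_apply, LinearMap.add_apply,
    LinearMap.smul_apply, Module.End.mul_apply, LinearMap.zero_apply, XA_tmul, XB_tmul]
  exact h

theorem serre_Y1 (ht : t ≠ 0) : serre (cc t) (YA t) (YB t) = 0 := by
  refine TensorProduct.ext' fun u v => ?_
  have h := congrArg (fun z => (kA t (kA t u)) ⊗ₜ[K] (z * v)) (serre_AB (cc t))
  simp only [serre, pow_succ, pow_zero, one_mul, sub_mul, add_mul, smul_mul_assoc, mul_assoc,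
    zero_mul, TensorProduct.tmul_sub, TensorProduct.tmul_add, TensorProduct.tmul_zero,
    TensorProduct.tmul_smul] at h
  simp only [serre, pow_succ, pow_zero, one_mul, LinearMap.sub_apply, LinearMap.add_apply,
    LinearMap.smul_apply, Module.End.mul_apply, LinearMap.zero_apply, YA_tmul, YB_tmul,
    kA_kB ht, kB_kA ht]
  exact h

theorem serre_Y2 (ht : t ≠ 0) : serre (cc t) (YB t) (YA t) = 0 := by
  refine TensorProduct.ext' fun u v => ?_
  have h := congrArg (fun z => (kB t (kB t u)) ⊗ₜ[K] (z * v)) (serre_BA (cc t))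
  simp only [serre, pow_succ, pow_zero, one_mul, sub_mul, add_mul, smul_mul_assoc, mul_assoc,
    zero_mul, TensorProduct.tmul_sub, TensorProduct.tmul_add, TensorProduct.tmul_zero,
    TensorProduct.tmul_smul] at h
  simp only [serre, pow_succ, pow_zero, one_mul, LinearMap.sub_apply, LinearMap.add_apply,
    LinearMap.smul_apply, Module.End.mul_apply, LinearMap.zero_apply, YA_tmul, YB_tmul,
    kA_kB ht, kB_kA ht]
  exact h

section Delta

variable [NeZero t]

variable (t) in
/-- The coproduct representation on `U ⊗ U`. -/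
def Delta : U t →ₐ[K] Module.End K (U t ⊗[K] U t) :=
  lift (XA t + YA t) (XB t + YB t)
    (by rw [serre_add t (NeZero.ne t) _ _ _ _ YA_XA YB_XB YA_XB YB_XA, serre_X1,
      serre_Y1 (NeZero.ne t), add_zero])
    (by rw [serre_add t (NeZero.ne t) _ _ _ _ YB_XB YA_XA YB_XA YA_XB, serre_X2,
      serre_Y2 (NeZero.ne t), add_zero])

variable (t) in
/-- The coproduct. -/
def cop : U t →ₗ[K] U t ⊗[K] U t where
  toFun u := Delta t u (1 ⊗ₜ 1)
  map_add' u v := by simp
  map_smul' c u := by simp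

theorem cop_one : cop t (1 : U t) = 1 ⊗ₜ 1 := by
  change Delta t 1 (1 ⊗ₜ 1) = 1 ⊗ₜ 1
  rw [map_one, Module.End.one_apply]

theorem cop_a_mul (u : U t) : cop t (a t * u) = XA t (cop t u) + YA t (cop t u) := by
  change Delta t (a t * u) (1 ⊗ₜ 1) = _
  rw [map_mul, Module.End.mul_apply, show Delta t (a t) = XA t + YA t from lift_A _ _ _ _,
    LinearMap.add_apply]
  rfl

theorem cop_b_mul (u : U t) : cop t (b t * u) = XB t (cop t u) + YB t (cop t u) := by
  change Delta t (b t * u) (1 ⊗ₜ 1) = _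
  rw [map_mul, Module.End.mul_apply, show Delta t (b t) = XB t + YB t from lift_B _ _ _ _,
    LinearMap.add_apply]
  rfl

variable (t) in
/-- Contraction of the second factor with a functional. -/
def ctr (φ : U t →ₗ[K] K) : U t ⊗[K] U t →ₗ[K] U t :=
  (TensorProduct.rid K (U t)).toLinearMap ∘ₗ LinearMap.lTensor (U t) φ

theorem ctr_tmul (φ : U t →ₗ[K] K) (u v : U t) : ctr t φ (u ⊗ₜ v) = φ v • u := by
  simp [ctr]

theorem ctr_sep (w : U t ⊗[K] U t) (h : ∀ φ, ctr t φ w = 0) : w = 0 := by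
  classical
  let 𝒞 := Module.Basis.ofVectorSpace K (U t)
  apply (TensorProduct.equivFinsuppOfBasisRight 𝒞).injective
  rw [map_zero]
  ext i
  rw [TensorProduct.equivFinsuppOfBasisRight_apply]
  exact h (𝒞.coord i)

variable (t) in
/-- The coproduct contracted with a functional. -/
def rho (φ : U t →ₗ[K] K) : U t →ₗ[K] U t := ctr t φ ∘ₗ cop t

theorem rho_one (φ : U t →ₗ[K] K) : rho t φ 1 = φ 1 • 1 := by
  rw [rho, LinearMap.comp_apply, cop_one, ctr_tmul]

theorem ctr_XA (φ : U t →ₗ[K] K) (w : U t ⊗[K] U t) : ctr t φ (XA t w) = a t * ctr t φ w := by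
  have : ctr t φ ∘ₗ XA t = LinearMap.mulLeft K (a t) ∘ₗ ctr t φ := by
    refine TensorProduct.ext' fun u v => ?_
    simp only [LinearMap.comp_apply, XA_tmul, ctr_tmul, LinearMap.mulLeft_apply, mul_smul_comm]
  exact LinearMap.congr_fun this w

theorem ctr_XB (φ : U t →ₗ[K] K) (w : U t ⊗[K] U t) : ctr t φ (XB t w) = b t * ctr t φ w := by
  have : ctr t φ ∘ₗ XB t = LinearMap.mulLeft K (b t) ∘ₗ ctr t φ := by
    refine TensorProduct.ext' fun u v => ?_
    simp only [LinearMap.comp_apply, XB_tmul, ctr_tmul, LinearMap.mulLeft_apply, mul_smul_comm]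
  exact LinearMap.congr_fun this w

theorem ctr_YA (φ : U t →ₗ[K] K) (w : U t ⊗[K] U t) :
    ctr t φ (YA t w) = kA t (ctr t (φ ∘ₗ LinearMap.mulLeft K (a t)) w) := by
  have : ctr t φ ∘ₗ YA t = (kA t).toLinearMap ∘ₗ ctr t (φ ∘ₗ LinearMap.mulLeft K (a t)) := by
    refine TensorProduct.ext' fun u v => ?_
    simp only [LinearMap.comp_apply, YA_tmul, ctr_tmul, LinearMap.mulLeft_apply,
      AlgHom.toLinearMap_apply, map_smul]
  exact LinearMap.congr_fun this w

theorem ctr_YB (φ : U t →ₗ[K] K) (w : U t ⊗[K] U t) :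
    ctr t φ (YB t w) = kB t (ctr t (φ ∘ₗ LinearMap.mulLeft K (b t)) w) := by
  have : ctr t φ ∘ₗ YB t = (kB t).toLinearMap ∘ₗ ctr t (φ ∘ₗ LinearMap.mulLeft K (b t)) := by
    refine TensorProduct.ext' fun u v => ?_
    simp only [LinearMap.comp_apply, YB_tmul, ctr_tmul, LinearMap.mulLeft_apply,
      AlgHom.toLinearMap_apply, map_smul]
  exact LinearMap.congr_fun this w

theorem rho_a_mul (φ : U t →ₗ[K] K) (u : U t) : rho t φ (a t * u) =
    a t * rho t φ u + kA t (rho t (φ ∘ₗ LinearMap.mulLeft K (a t)) u) := by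
  simp only [rho, LinearMap.comp_apply]
  rw [cop_a_mul, map_add, ctr_XA, ctr_YA]

theorem rho_b_mul (φ : U t →ₗ[K] K) (u : U t) : rho t φ (b t * u) =
    b t * rho t φ u + kB t (rho t (φ ∘ₗ LinearMap.mulLeft K (b t)) u) := by
  simp only [rho, LinearMap.comp_apply]
  rw [cop_b_mul, map_add, ctr_XB, ctr_YB]

theorem dA_rho (φ : U t →ₗ[K] K) (u : U t) : dA t (rho t φ u) = rho t φ (dA t u) := by
  refine fam_ext (ι := U t →ₗ[K] K) (fun φ => dA t ∘ₗ rho t φ) (fun φ => rho t φ ∘ₗ dA t)
    ?_ ?_ ?_ φ u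
  · intro φ
    simp only [LinearMap.comp_apply, rho_one, map_smul, dA_one, smul_zero, map_zero]
  · intro v hv φ
    simp only [LinearMap.comp_apply] at hv
    change dA t (rho t φ (a t * v)) = rho t φ (dA t (a t * v))
    rw [rho_a_mul, map_add, dA_a_mul, dA_kA, hv, hv, dA_a_mul, map_add, map_smul, rho_a_mul,
      smul_add]
    abel
  · intro v hv φ
    simp only [LinearMap.comp_apply] at hv
    change dA t (rho t φ (b t * v)) = rho t φ (dA t (b t * v))
    rw [rho_b_mul, map_add, dA_b_mul, dA_kB, hv, hv, dA_b_mul, map_smul, rho_b_mul,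
      smul_add]

theorem dB_rho (φ : U t →ₗ[K] K) (u : U t) : dB t (rho t φ u) = rho t φ (dB t u) := by
  refine fam_ext (ι := U t →ₗ[K] K) (fun φ => dB t ∘ₗ rho t φ) (fun φ => rho t φ ∘ₗ dB t)
    ?_ ?_ ?_ φ u
  · intro φ
    simp only [LinearMap.comp_apply, rho_one, map_smul, dB_one, smul_zero, map_zero]
  · intro v hv φ
    simp only [LinearMap.comp_apply] at hv
    change dB t (rho t φ (a t * v)) = rho t φ (dB t (a t * v))
    rw [rho_a_mul, map_add, dB_a_mul, dB_kA, hv, hv, dB_a_mul, map_smul, rho_a_mul,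
      smul_add]
  · intro v hv φ
    simp only [LinearMap.comp_apply] at hv
    change dB t (rho t φ (b t * v)) = rho t φ (dB t (b t * v))
    rw [rho_b_mul, map_add, dB_b_mul, dB_kB, hv, hv, dB_b_mul, map_add, map_smul, rho_b_mul,
      smul_add]
    abel

theorem pr_rho_zero (φ : U t →ₗ[K] K) (u : U t) : pr t 0 0 (rho t φ u) = φ u • 1 := by
  refine fam_ext (ι := U t →ₗ[K] K) (fun φ => pr t 0 0 ∘ₗ rho t φ)
    (fun φ => φ.smulRight (1 : U t)) ?_ ?_ ?_ φ u
  · intro φ
    simp only [LinearMap.comp_apply, rho_one, map_smul, pr_one_zero, LinearMap.smulRight_apply]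
  · intro v hv φ
    simp only [LinearMap.comp_apply, LinearMap.smulRight_apply] at hv
    change pr t 0 0 (rho t φ (a t * v)) = φ (a t * v) • 1
    rw [rho_a_mul, map_add, pr_a_zero, pr_kA, hv]
    simp
  · intro v hv φ
    simp only [LinearMap.comp_apply, LinearMap.smulRight_apply] at hv
    change pr t 0 0 (rho t φ (b t * v)) = φ (b t * v) • 1
    rw [rho_b_mul, map_add, pr_b_zero, pr_kB, hv]
    simp

theorem pr_rho_top (φ : U t →ₗ[K] K) (u : U t) (r s x y : ℕ) (h : r + s ≤ x + y) :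
    pr t x y (rho t φ (pr t r s u)) = if x = r ∧ y = s then φ 1 • pr t r s u else 0 := by
  have := fam_ext (ι := {i : (U t →ₗ[K] K) × (ℕ × ℕ) × (ℕ × ℕ) // i.2.1.1 + i.2.1.2 ≤ i.2.2.1 + i.2.2.2})
    (fun i => pr t i.1.2.2.1 i.1.2.2.2 ∘ₗ rho t i.1.1 ∘ₗ pr t i.1.2.1.1 i.1.2.1.2)
    (fun i => (if i.1.2.2.1 = i.1.2.1.1 ∧ i.1.2.2.2 = i.1.2.1.2 then i.1.1 1 else 0) •
      pr t i.1.2.1.1 i.1.2.1.2) ?_ ?_ ?_ ⟨(φ, (r, s), (x, y)), h⟩ u
  · change pr t x y (rho t φ (pr t r s u)) = (if x = r ∧ y = s then φ 1 else 0) • pr t r s u at this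
    rw [this]
    split_ifs
    · rfl
    · exact zero_smul _ _
  · rintro ⟨⟨φ, ⟨r, s⟩, ⟨x, y⟩⟩, h⟩
    change pr t x y (rho t φ (pr t r s 1)) = (if x = r ∧ y = s then φ 1 else 0) • pr t r s 1
    rcases r with _ | r
    · rcases s with _ | s
      · rw [pr_one_zero, rho_one, map_smul, pr_one]
        by_cases hxy : x = 0 ∧ y = 0
        · rw [if_pos hxy, if_pos hxy]
        · rw [if_neg hxy, if_neg hxy]; simp
      · simp
    · simp
  · rintro v hv ⟨⟨φ, ⟨r, s⟩, ⟨x, y⟩⟩, h⟩
    have hv' : ∀ (φ : U t →ₗ[K] K) (r s x y : ℕ), r + s ≤ x + y →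
        pr t x y (rho t φ (pr t r s v)) = (if x = r ∧ y = s then φ 1 else 0) • pr t r s v :=
      fun φ r s x y h => hv ⟨(φ, (r, s), (x, y)), h⟩
    change pr t x y (rho t φ (pr t r s (a t * v))) =
      (if x = r ∧ y = s then φ 1 else 0) • pr t r s (a t * v)
    change r + s ≤ x + y at h
    rcases r with _ | r
    · simp
    · rw [pr_a_succ, rho_a_mul, map_add, pr_kA, hv' _ r s x y (by omega)]
      rw [if_neg (show ¬ (x = r ∧ y = s) by omega), zero_smul, smul_zero, add_zero]
      rcases x with _ | x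
      · rw [pr_a_zero, if_neg (by omega), zero_smul]
      · rw [pr_a_succ, hv' _ r s x y (by omega), mul_smul_comm]
        by_cases hxy : x = r ∧ y = s
        · rw [if_pos hxy, if_pos (by omega)]
        · rw [if_neg hxy, if_neg (by omega)]
  · rintro v hv ⟨⟨φ, ⟨r, s⟩, ⟨x, y⟩⟩, h⟩
    have hv' : ∀ (φ : U t →ₗ[K] K) (r s x y : ℕ), r + s ≤ x + y →
        pr t x y (rho t φ (pr t r s v)) = (if x = r ∧ y = s then φ 1 else 0) • pr t r s v :=
      fun φ r s x y h => hv ⟨(φ, (r, s), (x, y)), h⟩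
    change pr t x y (rho t φ (pr t r s (b t * v))) =
      (if x = r ∧ y = s then φ 1 else 0) • pr t r s (b t * v)
    change r + s ≤ x + y at h
    rcases s with _ | s
    · simp
    · rw [pr_b_succ, rho_b_mul, map_add, pr_kB, hv' _ r s x y (by omega)]
      rw [if_neg (show ¬ (x = r ∧ y = s) by omega), zero_smul, smul_zero, add_zero]
      rcases y with _ | y
      · rw [pr_b_zero, if_neg (by omega), zero_smul]
      · rw [pr_b_succ, hv' _ r s x y (by omega), mul_smul_comm]
        by_cases hxy : x = r ∧ y = s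
        · rw [if_pos hxy, if_pos (by omega)]
        · rw [if_neg hxy, if_neg (by omega)]

end Delta

end Pool.Helper137.UPlus
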