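import Pool.Agent.Helper137_UPlus.Maps

set_option linter.unusedSimpArgs false
set_option linter.unusedSectionVars false

namespace Pool.Helper137.UPlus

open MulOpposite

section Defs

variable {K : Type*} [Field K] (t : K) [NeZero t]

/-- The homomorphism to triangular matrices encoding the left skew derivation. -/
def dHom : U t →ₐ[K] Matrix (Fin 2) (Fin 2) (U t) :=
  lift !![t • a t, 1; 0, a t] !![t⁻¹ • b t, 0; 0, b t]
    (serre_mat1 t (NeZero.ne t) _ _ (serre_AB _)) (serre_mat2 t (NeZero.ne t) _ _ (serre_BA _))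

/-- Left skew derivation with respect to the first generator. -/
def dA : U t →ₗ[K] U t := (Matrix.entryLinearMap K (U t) 0 1) ∘ₗ (dHom t).toLinearMap

/-- Left skew derivation with respect to the second generator. -/
def dB : U t →ₗ[K] U t := (tau t).toLinearMap ∘ₗ dA t ∘ₗ (tau t).toLinearMap

/-- Right skew derivation with respect to the first generator. -/
def eA : U t →ₗ[K] U t := rev t ∘ₗ dA t ∘ₗ rev t

/-- Right skew derivation with respect to the second generator. -/
def eB : U t →ₗ[K] U t := rev t ∘ₗ dB t ∘ₗ rev t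

end Defs

variable {K : Type*} [Field K] {t : K} [NeZero t]

theorem dHom_a : dHom t (a t) = !![t • a t, 1; 0, a t] := lift_A _ _ _ _
theorem dHom_b : dHom t (b t) = !![t⁻¹ • b t, 0; 0, b t] := lift_B _ _ _ _

theorem dA_apply (u : U t) : dA t u = dHom t u 0 1 := rfl
theorem dB_apply (u : U t) : dB t u = tau t (dA t (tau t u)) := rfl
theorem eA_apply (u : U t) : eA t u = rev t (dA t (rev t u)) := rfl
theorem eB_apply (u : U t) : eB t u = rev t (dB t (rev t u)) := rfl

theorem dHom_11 (u : U t) : dHom t u 1 1 = u := by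
  have : (Matrix.entryLinearMap K (U t) 1 1) ∘ₗ (dHom t).toLinearMap = LinearMap.id := by
    apply lin_ext
    · simp
    · intro u hu
      simp only [LinearMap.comp_apply, AlgHom.toLinearMap_apply, LinearMap.id_apply,
        Matrix.entryLinearMap_apply] at hu ⊢
      rw [map_mul, dHom_a, Matrix.mul_apply, Fin.sum_univ_two, hu]
      simp
    · intro u hu
      simp only [LinearMap.comp_apply, AlgHom.toLinearMap_apply, LinearMap.id_apply,
        Matrix.entryLinearMap_apply] at hu ⊢
      rw [map_mul, dHom_b, Matrix.mul_apply, Fin.sum_univ_two, hu]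
      simp
  exact LinearMap.congr_fun this u

@[simp] theorem dA_one : dA t (1 : U t) = 0 := by
  rw [dA_apply, map_one]; simp

theorem dA_a_mul (u : U t) : dA t (a t * u) = u + t • (a t * dA t u) := by
  rw [dA_apply, map_mul, dHom_a, Matrix.mul_apply, Fin.sum_univ_two, dHom_11, ← dA_apply]
  simp [add_comm]

theorem dA_b_mul (u : U t) : dA t (b t * u) = t⁻¹ • (b t * dA t u) := by
  rw [dA_apply, map_mul, dHom_b, Matrix.mul_apply, Fin.sum_univ_two, dHom_11, ← dA_apply]
  simp

theorem dA_mul (u v : U t) : dA t (u * v) = dA t u * v + kA t u * dA t v := by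
  have : (dA t) ∘ₗ (LinearMap.mulRight K v) = (LinearMap.mulRight K v) ∘ₗ (dA t) +
      (LinearMap.mulRight K (dA t v)) ∘ₗ (kA t).toLinearMap := by
    apply lin_ext
    · simp
    · intro u hu
      simp only [LinearMap.comp_apply, AlgHom.toLinearMap_apply, LinearMap.add_apply,
        LinearMap.mulRight_apply] at hu ⊢
      rw [mul_assoc, dA_a_mul, dA_a_mul, hu, map_mul, kA_a]
      simp only [mul_add, add_mul, smul_mul_assoc, mul_assoc, smul_add]
      abel
    · intro u hu
      simp only [LinearMap.comp_apply, AlgHom.toLinearMap_apply, LinearMap.add_apply,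
        LinearMap.mulRight_apply] at hu ⊢
      rw [mul_assoc, dA_b_mul, dA_b_mul, hu, map_mul, kA_b]
      simp only [mul_add, add_mul, smul_mul_assoc, mul_assoc, smul_add]
  exact LinearMap.congr_fun this u

@[simp] theorem dB_one : dB t (1 : U t) = 0 := by
  rw [dB_apply, map_one, dA_one, map_zero]

theorem dB_b_mul (u : U t) : dB t (b t * u) = u + t • (b t * dB t u) := by
  rw [dB_apply, map_mul, tau_b, dA_a_mul, map_add, tau_tau, map_smul, map_mul, tau_a, ← dB_apply]

theorem dB_a_mul (u : U t) : dB t (a t * u) = t⁻¹ • (a t * dB t u) := by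
  rw [dB_apply, map_mul, tau_a, dA_b_mul, map_smul, map_mul, tau_b, ← dB_apply]

theorem dB_mul (u v : U t) : dB t (u * v) = dB t u * v + kB t u * dB t v := by
  rw [dB_apply, map_mul, dA_mul, map_add, map_mul, map_mul, tau_tau, ← dB_apply, tau_kA, tau_tau,
    ← dB_apply]

@[simp] theorem eA_one : eA t (1 : U t) = 0 := by
  rw [eA_apply, rev_one, dA_one, map_zero]
@[simp] theorem eB_one : eB t (1 : U t) = 0 := by
  rw [eB_apply, rev_one, dB_one, map_zero]

theorem eA_mul (u v : U t) : eA t (u * v) = u * eA t v + eA t u * kA t v := by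
  rw [eA_apply, rev_mul, dA_mul, map_add, rev_mul, rev_mul, rev_rev, ← eA_apply, ← eA_apply,
    rev_kA, rev_rev]

theorem eB_mul (u v : U t) : eB t (u * v) = u * eB t v + eB t u * kB t v := by
  rw [eB_apply, rev_mul, dB_mul, map_add, rev_mul, rev_mul, rev_rev, ← eB_apply, ← eB_apply,
    rev_kB, rev_rev]

@[simp] theorem dA_a : dA t (a t) = 1 := by
  have h := dA_a_mul (1 : U t); simpa using h
@[simp] theorem dA_b : dA t (b t) = 0 := by
  have h := dA_b_mul (1 : U t); simpa using h
@[simp] theorem dB_b : dB t (b t) = 1 := by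
  have h := dB_b_mul (1 : U t); simpa using h
@[simp] theorem dB_a : dB t (a t) = 0 := by
  have h := dB_a_mul (1 : U t); simpa using h
@[simp] theorem eA_a : eA t (a t) = 1 := by rw [eA_apply, rev_a, dA_a, rev_one]
@[simp] theorem eA_b : eA t (b t) = 0 := by rw [eA_apply, rev_b, dA_b, map_zero]
@[simp] theorem eB_b : eB t (b t) = 1 := by rw [eB_apply, rev_b, dB_b, rev_one]
@[simp] theorem eB_a : eB t (a t) = 0 := by rw [eB_apply, rev_a, dB_a, map_zero]

theorem eA_a_mul (u : U t) : eA t (a t * u) = a t * eA t u + kA t u := by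
  rw [eA_mul, eA_a, one_mul]
theorem eA_b_mul (u : U t) : eA t (b t * u) = b t * eA t u := by
  rw [eA_mul, eA_b, zero_mul, add_zero]
theorem eB_b_mul (u : U t) : eB t (b t * u) = b t * eB t u + kB t u := by
  rw [eB_mul, eB_b, one_mul]
theorem eB_a_mul (u : U t) : eB t (a t * u) = a t * eB t u := by
  rw [eB_mul, eB_a, zero_mul, add_zero]

theorem dA_kA (u : U t) : dA t (kA t u) = t • kA t (dA t u) := by
  have ht := NeZero.ne t
  have : (dA t) ∘ₗ (kA t).toLinearMap = t • ((kA t).toLinearMap ∘ₗ (dA t)) := by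
    apply lin_ext
    · simp
    · intro u hu
      simp only [LinearMap.comp_apply, AlgHom.toLinearMap_apply, LinearMap.smul_apply] at hu ⊢
      rw [map_mul, kA_a, smul_mul_assoc, map_smul, dA_a_mul, hu, dA_a_mul, map_add, map_smul,
        map_mul, kA_a, smul_mul_assoc, mul_smul_comm]
    · intro u hu
      simp only [LinearMap.comp_apply, AlgHom.toLinearMap_apply, LinearMap.smul_apply] at hu ⊢
      rw [map_mul, kA_b, smul_mul_assoc, map_smul, dA_b_mul, hu, dA_b_mul, map_smul,
        map_mul, kA_b, smul_mul_assoc, mul_smul_comm]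
      simp only [smul_smul]
      congr 1
      field_simp
  exact LinearMap.congr_fun this u

theorem dA_kB (u : U t) : dA t (kB t u) = t⁻¹ • kB t (dA t u) := by
  have ht := NeZero.ne t
  have h := dA_kA (kB t u)
  rw [kA_kB ht] at h
  have h2 := congrArg (kB t) h
  rw [map_smul, kB_kA ht] at h2
  rw [h2, smul_smul, inv_mul_cancel₀ ht, one_smul]

theorem dB_kB (u : U t) : dB t (kB t u) = t • kB t (dB t u) := by
  rw [dB_apply, tau_kB, dA_kA, map_smul, tau_kA, ← dB_apply]

theorem dB_kA (u : U t) : dB t (kA t u) = t⁻¹ • kA t (dB t u) := by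
  rw [dB_apply, tau_kA, dA_kB, map_smul, tau_kB, ← dB_apply]

theorem eA_kA (u : U t) : eA t (kA t u) = t • kA t (eA t u) := by
  rw [eA_apply, rev_kA, dA_kA, map_smul, rev_kA, ← eA_apply]

theorem eA_kB (u : U t) : eA t (kB t u) = t⁻¹ • kB t (eA t u) := by
  rw [eA_apply, rev_kB, dA_kB, map_smul, rev_kB, ← eA_apply]

theorem eB_kB (u : U t) : eB t (kB t u) = t • kB t (eB t u) := by
  rw [eB_apply, rev_kB, dB_kB, map_smul, rev_kB, ← eB_apply]

theorem eB_kA (u : U t) : eB t (kA t u) = t⁻¹ • kA t (eB t u) := by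
  rw [eB_apply, rev_kA, dB_kA, map_smul, rev_kA, ← eB_apply]

theorem dA_eA (u : U t) : dA t (eA t u) = eA t (dA t u) := by
  have : (dA t) ∘ₗ (eA t) = (eA t) ∘ₗ (dA t) := by
    apply lin_ext
    · simp
    · intro u hu
      simp only [LinearMap.comp_apply] at hu ⊢
      rw [eA_a_mul, dA_a_mul, map_add, map_add, dA_a_mul, hu, map_smul, eA_a_mul, dA_kA, smul_add]
      abel
    · intro u hu
      simp only [LinearMap.comp_apply] at hu ⊢
      rw [eA_b_mul, dA_b_mul, dA_b_mul, hu, map_smul, eA_b_mul]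
  exact LinearMap.congr_fun this u

theorem dB_eA (u : U t) : dB t (eA t u) = eA t (dB t u) := by
  have : (dB t) ∘ₗ (eA t) = (eA t) ∘ₗ (dB t) := by
    apply lin_ext
    · simp
    · intro u hu
      simp only [LinearMap.comp_apply] at hu ⊢
      rw [eA_a_mul, dB_a_mul, map_add, dB_a_mul, hu, map_smul, eA_a_mul, dB_kA, smul_add]
    · intro u hu
      simp only [LinearMap.comp_apply] at hu ⊢
      rw [eA_b_mul, dB_b_mul, dB_b_mul, hu, map_add, map_smul, eA_b_mul]
  exact LinearMap.congr_fun this u

theorem eB_tau (u : U t) : eB t (tau t u) = tau t (eA t u) := by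
  rw [eB_apply, dB_apply, rev_tau, rev_tau, tau_tau, eA_apply]

theorem eA_tau (u : U t) : eA t (tau t u) = tau t (eB t u) := by
  have h := eB_tau (tau t u)
  rw [tau_tau] at h
  rw [h, tau_tau]

theorem dB_tau (u : U t) : dB t (tau t u) = tau t (dA t u) := by
  rw [dB_apply, tau_tau]

theorem dA_tau (u : U t) : dA t (tau t u) = tau t (dB t u) := by
  rw [dB_apply, tau_tau]

theorem dB_eB (u : U t) : dB t (eB t u) = eB t (dB t u) := by
  have h := congrArg (tau t) (dA_eA (tau t u))
  rw [eA_tau, dA_tau, tau_tau, dA_tau, eA_tau, tau_tau] at h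
  exact h

theorem dA_eB (u : U t) : dA t (eB t u) = eB t (dA t u) := by
  have h := congrArg (tau t) (dB_eA (tau t u))
  rw [eA_tau, dB_tau, tau_tau, dB_tau, eA_tau, tau_tau] at h
  exact h

end Pool.Helper137.UPlus
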