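import Pool.Agent.Helper137_UPlus.Deriv

set_option linter.unusedSimpArgs false
set_option linter.unusedSectionVars false

namespace Pool.Helper137.UPlus

theorem fam_ext {K : Type*} [Field K] {c : K} {ι V : Type*} [AddCommGroup V] [Module K V]
    (f g : ι → UC K c →ₗ[K] V)
    (h1 : ∀ i, f i 1 = g i 1) (hA : ∀ u, (∀ i, f i u = g i u) → ∀ i, f i (A c * u) = g i (A c * u))
    (hB : ∀ u, (∀ i, f i u = g i u) → ∀ i, f i (B c * u) = g i (B c * u)) (i : ι) (u : UC K c) :
    f i u = g i u := by
  have key := ind (⨅ i, LinearMap.eqLocus (f i) (g i)) (by simpa [Submodule.mem_iInf] using h1)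
    (by simpa [Submodule.mem_iInf] using hA) (by simpa [Submodule.mem_iInf] using hB) u
  simp only [Submodule.mem_iInf, LinearMap.mem_eqLocus] at key
  exact key i

variable {K : Type*} [Field K] (t : K)

/-- Shift in the first index with left multiplication by the first generator. -/
def shA : Module.End K (ℕ → ℕ → U t) where
  toFun F := fun r s => match r with
    | 0 => 0
    | r + 1 => a t * F r s
  map_add' F G := by
    funext r s
    cases r <;> simp [mul_add]
  map_smul' c F := by
    funext r s
    cases r <;> simp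

/-- Shift in the second index with left multiplication by the second generator. -/
def shB : Module.End K (ℕ → ℕ → U t) where
  toFun F := fun r s => match s with
    | 0 => 0
    | s + 1 => b t * F r s
  map_add' F G := by
    funext r s
    cases s <;> simp [mul_add]
  map_smul' c F := by
    funext r s
    cases s <;> simp

variable {t}

@[simp] theorem shA_zero (F : ℕ → ℕ → U t) (s : ℕ) : shA t F 0 s = 0 := rfl
@[simp] theorem shA_succ (F : ℕ → ℕ → U t) (r s : ℕ) : shA t F (r + 1) s = a t * F r s := rfl
@[simp] theorem shB_zero (F : ℕ → ℕ → U t) (r : ℕ) : shB t F r 0 = 0 := rfl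
@[simp] theorem shB_succ (F : ℕ → ℕ → U t) (r s : ℕ) : shB t F r (s + 1) = b t * F r s := rfl

theorem serre_sh1 : serre (cc t) (shA t) (shB t) = 0 := by
  refine LinearMap.ext fun F => funext fun r => funext fun s => ?_
  unfold serre
  simp only [pow_succ, pow_zero, one_mul, LinearMap.sub_apply, LinearMap.add_apply,
    LinearMap.smul_apply, Module.End.mul_apply, LinearMap.zero_apply, Pi.sub_apply, Pi.add_apply,
    Pi.smul_apply, Pi.zero_apply]
  rcases s with _ | s
  · rcases r with _ | _ | _ | r <;> simp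
  · rcases r with _ | _ | _ | r
    · simp
    · simp
    · simp
    · simp only [shA_succ, shB_succ]
      have h := congrArg (fun z => z * F r s) (serre_AB (cc t))
      simp only [serre, pow_succ, pow_zero, one_mul, sub_mul, add_mul, smul_mul_assoc, mul_assoc,
        zero_mul] at h
      exact h

theorem serre_sh2 : serre (cc t) (shB t) (shA t) = 0 := by
  refine LinearMap.ext fun F => funext fun r => funext fun s => ?_
  unfold serre
  simp only [pow_succ, pow_zero, one_mul, LinearMap.sub_apply, LinearMap.add_apply,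
    LinearMap.smul_apply, Module.End.mul_apply, LinearMap.zero_apply, Pi.sub_apply, Pi.add_apply,
    Pi.smul_apply, Pi.zero_apply]
  rcases r with _ | r
  · rcases s with _ | _ | _ | s <;> simp
  · rcases s with _ | _ | _ | s
    · simp
    · simp
    · simp
    · simp only [shA_succ, shB_succ]
      have h := congrArg (fun z => z * F r s) (serre_BA (cc t))
      simp only [serre, pow_succ, pow_zero, one_mul, sub_mul, add_mul, smul_mul_assoc, mul_assoc,
        zero_mul] at h
      exact h

variable (t) in
/-- The representation on functions. -/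
def rep : U t →ₐ[K] Module.End K (ℕ → ℕ → U t) := lift (shA t) (shB t) serre_sh1 serre_sh2

variable (t) in
/-- The indicator function of the origin. -/
def F0 : ℕ → ℕ → U t := fun r s => if r = 0 ∧ s = 0 then 1 else 0

variable (t) in
/-- Projection to the component of bidegree `(r, s)`. -/
def pr (r s : ℕ) : U t →ₗ[K] U t where
  toFun u := rep t u (F0 t) r s
  map_add' u v := by simp
  map_smul' c u := by simp

theorem pr_apply (r s : ℕ) (u : U t) : pr t r s u = rep t u (F0 t) r s := rfl

theorem pr_one (r s : ℕ) : pr t r s 1 = if r = 0 ∧ s = 0 then 1 else 0 := by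
  rw [pr_apply, map_one, Module.End.one_apply, F0]

@[simp] theorem pr_one_zero : pr t 0 0 1 = 1 := by rw [pr_one]; simp
@[simp] theorem pr_one_succ1 (r s : ℕ) : pr t (r + 1) s 1 = 0 := by rw [pr_one]; simp
@[simp] theorem pr_one_succ2 (r s : ℕ) : pr t r (s + 1) 1 = 0 := by rw [pr_one]; simp

theorem rep_a : rep t (a t) = shA t := lift_A _ _ _ _
theorem rep_b : rep t (b t) = shB t := lift_B _ _ _ _

@[simp] theorem pr_a_zero (s : ℕ) (u : U t) : pr t 0 s (a t * u) = 0 := by
  rw [pr_apply, map_mul, Module.End.mul_apply, rep_a, shA_zero]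
@[simp] theorem pr_a_succ (r s : ℕ) (u : U t) : pr t (r + 1) s (a t * u) = a t * pr t r s u := by
  rw [pr_apply, map_mul, Module.End.mul_apply, rep_a, shA_succ, ← pr_apply]
@[simp] theorem pr_b_zero (r : ℕ) (u : U t) : pr t r 0 (b t * u) = 0 := by
  rw [pr_apply, map_mul, Module.End.mul_apply, rep_b, shB_zero]
@[simp] theorem pr_b_succ (r s : ℕ) (u : U t) : pr t r (s + 1) (b t * u) = b t * pr t r s u := by
  rw [pr_apply, map_mul, Module.End.mul_apply, rep_b, shB_succ, ← pr_apply]

theorem pr_pr (r s r' s' : ℕ) (u : U t) :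
    pr t r' s' (pr t r s u) = if r' = r ∧ s' = s then pr t r s u else 0 := by
  have := fam_ext (ι := ℕ × ℕ × ℕ × ℕ) (fun i => pr t i.2.2.1 i.2.2.2 ∘ₗ pr t i.1 i.2.1)
    (fun i => if i.2.2.1 = i.1 ∧ i.2.2.2 = i.2.1 then pr t i.1 i.2.1 else 0)
    (by
      rintro ⟨r, s, r', s'⟩
      simp only [LinearMap.comp_apply]
      rcases r with _ | r <;> rcases s with _ | s <;> rcases r' with _ | r' <;>
        rcases s' with _ | s' <;> simp <;> split_ifs <;> simp)
    (by
      rintro u hu ⟨r, s, r', s'⟩
      change pr t r' s' (pr t r s (a t * u)) =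
        (if r' = r ∧ s' = s then pr t r s else 0 : U t →ₗ[K] U t) (a t * u)
      rcases r with _ | r
      · rw [pr_a_zero, map_zero]; split_ifs <;> simp
      · rw [pr_a_succ]
        rcases r' with _ | r'
        · simp
        · rw [pr_a_succ]
          have := hu (r, s, r', s')
          simp only [LinearMap.comp_apply] at this
          rw [this]
          by_cases h : r' = r ∧ s' = s
          · rw [if_pos h, if_pos (by omega), pr_a_succ]
          · rw [if_neg h, if_neg (by omega)]; simp)
    (by
      rintro u hu ⟨r, s, r', s'⟩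
      change pr t r' s' (pr t r s (b t * u)) =
        (if r' = r ∧ s' = s then pr t r s else 0 : U t →ₗ[K] U t) (b t * u)
      rcases s with _ | s
      · rw [pr_b_zero, map_zero]; split_ifs <;> simp
      · rw [pr_b_succ]
        rcases s' with _ | s'
        · simp
        · rw [pr_b_succ]
          have := hu (r, s, r', s')
          simp only [LinearMap.comp_apply] at this
          rw [this]
          by_cases h : r' = r ∧ s' = s
          · rw [if_pos h, if_pos (by omega), pr_b_succ]
          · rw [if_neg h, if_neg (by omega)]; simp)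
    (r, s, r', s') u
  simp only [LinearMap.comp_apply] at this
  rw [this]
  split_ifs <;> simp

theorem kA_pr (r s : ℕ) (u : U t) : kA t (pr t r s u) = (t ^ r * t⁻¹ ^ s) • pr t r s u := by
  have := fam_ext (ι := ℕ × ℕ) (fun i => (kA t).toLinearMap ∘ₗ pr t i.1 i.2)
    (fun i => (t ^ i.1 * t⁻¹ ^ i.2) • pr t i.1 i.2)
    (by
      rintro ⟨r, s⟩
      rcases r with _ | r <;> rcases s with _ | s <;> simp)
    (by
      rintro u hu ⟨r, s⟩
      change kA t (pr t r s (a t * u)) = (t ^ r * t⁻¹ ^ s) • pr t r s (a t * u)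
      rcases r with _ | r
      · simp
      · have := hu (r, s)
        change kA t (pr t r s u) = (t ^ r * t⁻¹ ^ s) • pr t r s u at this
        rw [pr_a_succ, map_mul, this, kA_a, smul_mul_assoc, mul_smul_comm, smul_smul]
        congr 1; ring)
    (by
      rintro u hu ⟨r, s⟩
      change kA t (pr t r s (b t * u)) = (t ^ r * t⁻¹ ^ s) • pr t r s (b t * u)
      rcases s with _ | s
      · simp
      · have := hu (r, s)
        change kA t (pr t r s u) = (t ^ r * t⁻¹ ^ s) • pr t r s u at this
        rw [pr_b_succ, map_mul, this, kA_b, smul_mul_assoc, mul_smul_comm, smul_smul]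
        congr 1; ring)
    (r, s) u
  exact this

theorem pr_kA (r s : ℕ) (u : U t) : pr t r s (kA t u) = (t ^ r * t⁻¹ ^ s) • pr t r s u := by
  have := fam_ext (ι := ℕ × ℕ) (fun i => pr t i.1 i.2 ∘ₗ (kA t).toLinearMap)
    (fun i => (t ^ i.1 * t⁻¹ ^ i.2) • pr t i.1 i.2)
    (by
      rintro ⟨r, s⟩
      rcases r with _ | r <;> rcases s with _ | s <;> simp)
    (by
      rintro u hu ⟨r, s⟩
      change pr t r s (kA t (a t * u)) = (t ^ r * t⁻¹ ^ s) • pr t r s (a t * u)
      rw [map_mul, kA_a, smul_mul_assoc, map_smul]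
      rcases r with _ | r
      · simp
      · have := hu (r, s)
        change pr t r s (kA t u) = (t ^ r * t⁻¹ ^ s) • pr t r s u at this
        rw [pr_a_succ, pr_a_succ, this, mul_smul_comm, smul_smul]
        congr 1; ring)
    (by
      rintro u hu ⟨r, s⟩
      change pr t r s (kA t (b t * u)) = (t ^ r * t⁻¹ ^ s) • pr t r s (b t * u)
      rw [map_mul, kA_b, smul_mul_assoc, map_smul]
      rcases s with _ | s
      · simp
      · have := hu (r, s)
        change pr t r s (kA t u) = (t ^ r * t⁻¹ ^ s) • pr t r s u at this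
        rw [pr_b_succ, pr_b_succ, this, mul_smul_comm, smul_smul]
        congr 1; ring)
    (r, s) u
  exact this

theorem pr_tau (r s : ℕ) (u : U t) : pr t r s (tau t u) = tau t (pr t s r u) := by
  have := fam_ext (ι := ℕ × ℕ) (fun i => pr t i.1 i.2 ∘ₗ (tau t).toLinearMap)
    (fun i => (tau t).toLinearMap ∘ₗ pr t i.2 i.1)
    (by
      rintro ⟨r, s⟩
      rcases r with _ | r <;> rcases s with _ | s <;> simp)
    (by
      rintro u hu ⟨r, s⟩
      change pr t r s (tau t (a t * u)) = tau t (pr t s r (a t * u))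
      rw [map_mul, tau_a]
      rcases s with _ | s
      · simp
      · have := hu (r, s)
        change pr t r s (tau t u) = tau t (pr t s r u) at this
        rw [pr_b_succ, pr_a_succ, this, map_mul, tau_a])
    (by
      rintro u hu ⟨r, s⟩
      change pr t r s (tau t (b t * u)) = tau t (pr t s r (b t * u))
      rw [map_mul, tau_b]
      rcases r with _ | r
      · simp
      · have := hu (r, s)
        change pr t r s (tau t u) = tau t (pr t s r u) at this
        rw [pr_b_succ, pr_a_succ, this, map_mul, tau_b])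
    (r, s) u
  exact this

theorem pr_kB (r s : ℕ) (u : U t) : pr t r s (kB t u) = (t ^ s * t⁻¹ ^ r) • pr t r s u := by
  have h := pr_kA s r (tau t u)
  rw [← tau_kB, pr_tau, pr_tau, ← map_smul] at h
  have h2 := congrArg (tau t) h
  rwa [tau_tau, tau_tau] at h2

theorem kB_pr (r s : ℕ) (u : U t) : kB t (pr t r s u) = (t ^ s * t⁻¹ ^ r) • pr t r s u := by
  have h := kA_pr s r (tau t u)
  rw [pr_tau, ← tau_kB, ← map_smul] at h
  have h2 := congrArg (tau t) h
  rwa [tau_tau, tau_tau] at h2

theorem pr_mul_a_zero_and (u : U t) : (∀ s, pr t 0 s (u * a t) = 0) ∧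
    ∀ r s, pr t (r + 1) s (u * a t) = pr t r s u * a t := by
  have key := fun i u => fam_ext (ι := Unit ⊕ ℕ × ℕ) (V := ℕ → U t)
    (fun i => match i with
      | .inl _ => LinearMap.pi (fun s => pr t 0 s ∘ₗ LinearMap.mulRight K (a t))
      | .inr (r, _) => LinearMap.pi (fun s => pr t (r + 1) s ∘ₗ LinearMap.mulRight K (a t)))
    (fun i => match i with
      | .inl _ => 0
      | .inr (r, _) => LinearMap.pi (fun s => LinearMap.mulRight K (a t) ∘ₗ pr t r s))
    (by
      rintro (_ | ⟨r, _⟩)
      · funext s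
        have := pr_a_zero s (1 : U t)
        rw [mul_one] at this
        simp [this]
      · funext s
        have := pr_a_succ r s (1 : U t)
        rw [mul_one] at this
        simp only [LinearMap.pi_apply, LinearMap.comp_apply, LinearMap.mulRight_apply, one_mul]
        rw [this]
        rcases r with _ | r <;> rcases s with _ | s <;> simp)
    (by
      intro u hu
      have h0 : ∀ s, pr t 0 s (u * a t) = 0 := fun s => congrFun (hu (.inl ())) s
      have h1 : ∀ r s, pr t (r + 1) s (u * a t) = pr t r s u * a t :=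
        fun r s => congrFun (hu (.inr (r, 0))) s
      rintro (_ | ⟨r, _⟩)
      · funext s
        change pr t 0 s ((a t * u) * a t) = 0
        rw [mul_assoc, pr_a_zero]
      · funext s
        change pr t (r + 1) s ((a t * u) * a t) = pr t r s (a t * u) * a t
        rw [mul_assoc, pr_a_succ]
        rcases r with _ | r
        · rw [h0]; simp
        · rw [h1, pr_a_succ, mul_assoc])
    (by
      intro u hu
      have h0 : ∀ s, pr t 0 s (u * a t) = 0 := fun s => congrFun (hu (.inl ())) s
      have h1 : ∀ r s, pr t (r + 1) s (u * a t) = pr t r s u * a t :=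
        fun r s => congrFun (hu (.inr (r, 0))) s
      rintro (_ | ⟨r, _⟩)
      · funext s
        change pr t 0 s ((b t * u) * a t) = 0
        rw [mul_assoc]
        rcases s with _ | s
        · simp
        · rw [pr_b_succ, h0, mul_zero]
      · funext s
        change pr t (r + 1) s ((b t * u) * a t) = pr t r s (b t * u) * a t
        rw [mul_assoc]
        rcases s with _ | s
        · simp
        · rw [pr_b_succ, h1, pr_b_succ, mul_assoc])
    i u
  exact ⟨fun s => congrFun (key (.inl ()) u) s, fun r s => congrFun (key (.inr (r, 0)) u) s⟩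

@[simp] theorem pr_mul_a_zero (s : ℕ) (u : U t) : pr t 0 s (u * a t) = 0 :=
  (pr_mul_a_zero_and u).1 s
@[simp] theorem pr_mul_a_succ (r s : ℕ) (u : U t) :
    pr t (r + 1) s (u * a t) = pr t r s u * a t := (pr_mul_a_zero_and u).2 r s

@[simp] theorem pr_mul_b_zero (r : ℕ) (u : U t) : pr t r 0 (u * b t) = 0 := by
  have h := pr_mul_a_zero r (tau t u)
  rw [← tau_b, ← map_mul, pr_tau] at h
  have h2 := congrArg (tau t) h
  rwa [tau_tau, map_zero] at h2
@[simp] theorem pr_mul_b_succ (r s : ℕ) (u : U t) :
    pr t r (s + 1) (u * b t) = pr t r s u * b t := by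
  have h := pr_mul_a_succ s r (tau t u)
  rw [← tau_b, ← map_mul, pr_tau, pr_tau, ← map_mul] at h
  have h2 := congrArg (tau t) h
  rwa [tau_tau, tau_tau] at h2

theorem pr_rev (r s : ℕ) (u : U t) : pr t r s (rev t u) = rev t (pr t r s u) := by
  have := fam_ext (ι := ℕ × ℕ) (fun i => pr t i.1 i.2 ∘ₗ rev t)
    (fun i => rev t ∘ₗ pr t i.1 i.2)
    (by
      rintro ⟨r, s⟩
      rcases r with _ | r <;> rcases s with _ | s <;> simp)
    (by
      rintro u hu ⟨r, s⟩
      change pr t r s (rev t (a t * u)) = rev t (pr t r s (a t * u))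
      rw [rev_mul, rev_a]
      rcases r with _ | r
      · simp
      · have := hu (r, s)
        change pr t r s (rev t u) = rev t (pr t r s u) at this
        rw [pr_mul_a_succ, pr_a_succ, this, rev_mul, rev_a])
    (by
      rintro u hu ⟨r, s⟩
      change pr t r s (rev t (b t * u)) = rev t (pr t r s (b t * u))
      rw [rev_mul, rev_b]
      rcases s with _ | s
      · simp
      · have := hu (r, s)
        change pr t r s (rev t u) = rev t (pr t r s u) at this
        rw [pr_mul_b_succ, pr_b_succ, this, rev_mul, rev_b])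
    (r, s) u
  exact this

/-- Each element is the finite sum of its components. -/
theorem exists_sum (u : U t) : ∃ n, ∀ N ≥ n, ∀ M ≥ n,
    ∑ r ∈ Finset.range N, ∑ s ∈ Finset.range M, pr t r s u = u := by
  refine ind (c := cc t)
    { carrier := {u | ∃ n, ∀ N ≥ n, ∀ M ≥ n,
        ∑ r ∈ Finset.range N, ∑ s ∈ Finset.range M, pr t r s u = u}
      add_mem' := ?_
      zero_mem' := ⟨0, by simp⟩
      smul_mem' := ?_ } ?_ ?_ ?_ u
  · rintro u v ⟨n, hn⟩ ⟨m, hm⟩
    refine ⟨max n m, fun N hN M hM => ?_⟩
    simp only [map_add, Finset.sum_add_distrib]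
    rw [hn N (le_trans (le_max_left _ _) hN) M (le_trans (le_max_left _ _) hM),
      hm N (le_trans (le_max_right _ _) hN) M (le_trans (le_max_right _ _) hM)]
  · rintro c u ⟨n, hn⟩
    refine ⟨n, fun N hN M hM => ?_⟩
    simp only [map_smul, ← Finset.smul_sum]
    rw [hn N hN M hM]
  · refine ⟨1, fun N hN M hM => ?_⟩
    obtain ⟨N, rfl⟩ := Nat.exists_eq_add_of_le hN
    obtain ⟨M, rfl⟩ := Nat.exists_eq_add_of_le hM
    rw [add_comm 1 N, add_comm 1 M, Finset.sum_range_succ', Finset.sum_range_succ']
    simp
  · rintro u ⟨n, hn⟩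
    refine ⟨n + 1, fun N hN M hM => ?_⟩
    obtain ⟨N, rfl⟩ := Nat.exists_eq_add_of_le hN
    rw [show n + 1 + N = (n + N) + 1 by ring, Finset.sum_range_succ']
    change ∑ r ∈ Finset.range (n + N), ∑ s ∈ Finset.range M, pr t (r + 1) s (a t * u) +
      ∑ s ∈ Finset.range M, pr t 0 s (a t * u) = a t * u
    simp only [pr_a_zero, pr_a_succ, Finset.sum_const_zero, add_zero, ← Finset.mul_sum]
    rw [hn (n + N) (by omega) M (by omega)]
  · rintro u ⟨n, hn⟩
    refine ⟨n + 1, fun N hN M hM => ?_⟩
    obtain ⟨M, rfl⟩ := Nat.exists_eq_add_of_le hM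
    rw [show n + 1 + M = (n + M) + 1 by ring]
    have : ∀ r, ∑ s ∈ Finset.range (n + M + 1), pr t r s (b t * u) =
        b t * ∑ s ∈ Finset.range (n + M), pr t r s u := by
      intro r
      rw [Finset.sum_range_succ']
      simp only [pr_b_zero, pr_b_succ, add_zero, ← Finset.mul_sum]
    change ∑ r ∈ Finset.range N, ∑ s ∈ Finset.range (n + M + 1), pr t r s (b t * u) = b t * u
    simp only [this, ← Finset.mul_sum]
    rw [hn N (by omega) (n + M) (by omega)]

theorem eq_zero_of_pr (u : U t) (h : ∀ r s, pr t r s u = 0) : u = 0 := by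
  obtain ⟨n, hn⟩ := exists_sum u
  rw [← hn n le_rfl n le_rfl]
  simp [h]

theorem pr_zero_zero (u : U t) : ∃ c : K, pr t 0 0 u = c • 1 := by
  refine ind (c := cc t)
    { carrier := {u | ∃ c : K, pr t 0 0 u = c • 1}
      add_mem' := ?_
      zero_mem' := ⟨0, by simp⟩
      smul_mem' := ?_ } ?_ ?_ ?_ u
  · rintro u v ⟨c, hc⟩ ⟨d, hd⟩
    exact ⟨c + d, by rw [map_add, hc, hd, add_smul]⟩
  · rintro e u ⟨c, hc⟩
    exact ⟨e * c, by rw [map_smul, hc, smul_smul]⟩
  · exact ⟨1, by simp⟩
  · rintro u _
    exact ⟨0, by rw [zero_smul]; exact pr_a_zero _ _⟩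
  · rintro u _
    exact ⟨0, by rw [zero_smul]; exact pr_b_zero _ _⟩

theorem pr_one_zero' (u : U t) : ∃ c : K, pr t 1 0 u = c • a t := by
  refine ind (c := cc t)
    { carrier := {u | ∃ c : K, pr t 1 0 u = c • a t}
      add_mem' := ?_
      zero_mem' := ⟨0, by simp⟩
      smul_mem' := ?_ } ?_ ?_ ?_ u
  · rintro u v ⟨c, hc⟩ ⟨d, hd⟩
    exact ⟨c + d, by rw [map_add, hc, hd, add_smul]⟩
  · rintro e u ⟨c, hc⟩
    exact ⟨e * c, by rw [map_smul, hc, smul_smul]⟩
  · exact ⟨0, by rw [pr_one]; simp⟩
  · rintro u _
    obtain ⟨c, hc⟩ := pr_zero_zero u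
    refine ⟨c, ?_⟩
    have := pr_a_succ 0 0 u
    rw [hc, mul_smul_comm, mul_one] at this
    exact this
  · rintro u _
    exact ⟨0, by rw [zero_smul]; exact pr_b_zero _ _⟩

end Pool.Helper137.UPlus
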