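import Pool.Agent.Helper137_UPlus.Ad

set_option linter.unusedSimpArgs false
set_option linter.unusedSectionVars false

namespace Pool.Helper137.UPlus

variable {K : Type*} [Field K] {t : K} [NeZero t]

theorem dA_a_pow (n : ℕ) :
    dA t (a t ^ (n + 1)) = (∑ i ∈ Finset.range (n + 1), t ^ i) • a t ^ n := by
  induction n with
  | zero => simp
  | succ n ih =>
    rw [pow_succ', dA_a_mul, ih, mul_smul_comm, ← pow_succ', smul_smul, geom_sum_succ (n := n + 1)]
    rw [add_smul, one_smul, add_comm]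

theorem brack_ne (hroot : ∀ n : ℕ, 0 < n → t ^ n ≠ 1) (n : ℕ) :
    (∑ i ∈ Finset.range (n + 1), t ^ i) ≠ 0 := by
  intro h
  have := geom_sum_mul t (n + 1)
  rw [h, zero_mul] at this
  exact hroot (n + 1) (Nat.succ_pos _) (sub_eq_zero.mp this.symm)

theorem dA_sum (n : ℕ) (f : ℕ → U t) (hf : ∀ i, f i ∈ UP t) :
    dA t (∑ i ∈ Finset.range (n + 1), f i * a t ^ i) =
      ∑ i ∈ Finset.range n, ((∑ j ∈ Finset.range (i + 1), t ^ j) • kA t (f (i + 1))) * a t ^ i := by
  rw [Finset.sum_range_succ', map_add, map_sum]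
  have h0 : dA t (f 0 * a t ^ 0) = 0 := by
    rw [pow_zero, mul_one]; exact dA_of_mem (hf 0)
  rw [h0, add_zero]
  refine Finset.sum_congr rfl fun i _ => ?_
  rw [dA_mul, dA_of_mem (hf (i + 1)), zero_mul, zero_add, dA_a_pow, mul_smul_comm, smul_mul_assoc]

theorem kA_inj (u : U t) (h : kA t u = 0) : u = 0 := by
  rw [← kB_kA (NeZero.ne t) u, h, map_zero]

theorem unique_coeff (hroot : ∀ n : ℕ, 0 < n → t ^ n ≠ 1) (n : ℕ) : ∀ (f : ℕ → U t),
    (∀ i, f i ∈ UP t) → ∑ i ∈ Finset.range n, f i * a t ^ i = 0 → ∀ i < n, f i = 0 := by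
  induction n with
  | zero => intro f _ _ i hi; omega
  | succ n ih =>
    intro f hf h
    have hd := dA_sum n f hf
    rw [h, map_zero] at hd
    have h1 := ih (fun i => (∑ j ∈ Finset.range (i + 1), t ^ j) • kA t (f (i + 1)))
      (fun i => (UP t).smul_mem (kA_mem (hf _)) _) hd.symm
    have h2 : ∀ i < n, f (i + 1) = 0 := by
      intro i hi
      have := h1 i hi
      exact kA_inj _ ((smul_eq_zero.mp this).resolve_left (brack_ne hroot i))
    rw [Finset.sum_range_succ', Finset.sum_eq_zero (fun i hi => by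
      rw [h2 i (Finset.mem_range.mp hi), zero_mul]), zero_add, pow_zero, mul_one] at h
    intro i hi
    rcases i with _ | i
    · exact h
    · exact h2 i (by omega)

/-- The set of all `∑ fᵢ aⁱ` with `fᵢ ∈ UP`. -/
def W (t : K) [NeZero t] : Submodule K (U t) where
  carrier := {u | ∃ p : Polynomial (U t), (∀ i, p.coeff i ∈ UP t) ∧ p.eval (a t) = u}
  add_mem' := by
    rintro u v ⟨p, hp, rfl⟩ ⟨q, hq, rfl⟩
    exact ⟨p + q, fun i => by rw [Polynomial.coeff_add]; exact (UP t).add_mem (hp i) (hq i),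
      Polynomial.eval_add⟩
  zero_mem' := ⟨0, fun i => by rw [Polynomial.coeff_zero]; exact (UP t).zero_mem,
    Polynomial.eval_zero⟩
  smul_mem' := by
    rintro c u ⟨p, hp, rfl⟩
    refine ⟨c • p, fun i => by rw [Polynomial.coeff_smul]; exact (UP t).smul_mem (hp i) _, ?_⟩
    rw [Polynomial.eval_smul]

theorem mono_mem (i : ℕ) {f : U t} (hf : f ∈ UP t) : f * a t ^ i ∈ W t := by
  refine ⟨Polynomial.monomial i f, fun j => ?_, Polynomial.eval_monomial⟩
  rw [Polynomial.coeff_monomial]
  split_ifs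
  · exact hf
  · exact (UP t).zero_mem

theorem mem_W (u : U t) : u ∈ W t := by
  refine ind (c := cc t) (W t) ?_ ?_ ?_ u
  · have := mono_mem (t := t) 0 (UP t).one_mem
    rwa [pow_zero, mul_one] at this
  · rintro u ⟨p, hp, rfl⟩
    rw [Polynomial.eval_eq_sum_range, Finset.mul_sum]
    refine Submodule.sum_mem _ fun i _ => ?_
    have : A (cc t) * (p.coeff i * a t ^ i) =
        ad t (p.coeff i) * a t ^ i + kB t (p.coeff i) * a t ^ (i + 1) := by
      rw [ad_apply, sub_mul, pow_succ']
      simp only [mul_assoc]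
      abel
    rw [this]
    exact Submodule.add_mem _ (mono_mem _ (ad_mem (hp i))) (mono_mem _ (kB_mem (hp i)))
  · rintro u ⟨p, hp, rfl⟩
    rw [Polynomial.eval_eq_sum_range, Finset.mul_sum]
    refine Submodule.sum_mem _ fun i _ => ?_
    rw [← mul_assoc]
    exact mono_mem _ ((UP t).mul_mem b_mem (hp i))

/-- The kernel of the left skew derivation `dA` is the subalgebra `UP`. -/
theorem mem_UP_of_dA (hroot : ∀ n : ℕ, 0 < n → t ^ n ≠ 1) {u : U t} (hu : dA t u = 0) :
    u ∈ UP t := by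
  obtain ⟨p, hp, rfl⟩ := mem_W u
  rw [Polynomial.eval_eq_sum_range] at hu ⊢
  have hd := dA_sum p.natDegree (fun i => p.coeff i) hp
  rw [hu] at hd
  have h1 := unique_coeff hroot _ (fun i => (∑ j ∈ Finset.range (i + 1), t ^ j) •
    kA t (p.coeff (i + 1))) (fun i => (UP t).smul_mem (kA_mem (hp _)) _) hd.symm
  have h2 : ∀ i < p.natDegree, p.coeff (i + 1) = 0 := by
    intro i hi
    have := h1 i hi
    exact kA_inj _ ((smul_eq_zero.mp this).resolve_left (brack_ne hroot i))
  rw [Finset.sum_range_succ', Finset.sum_eq_zero (fun i hi => by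
      rw [h2 i (Finset.mem_range.mp hi), zero_mul]), zero_add, pow_zero, mul_one]
  exact hp 0

theorem kA_ad_pow {z : U t} {m : ℕ} (h3 : kA t z = t ^ m • z) (k : ℕ) :
    kA t ((ad t ^ k) z) = t ^ (m + k) • (ad t ^ k) z := by
  induction k with
  | zero => simpa using h3
  | succ k ih =>
    rw [pow_succ', Module.End.mul_apply, kA_ad, ih, map_smul, smul_smul]
    congr 1; ring

theorem kB_of_kA {z : U t} {m : ℕ} (h3 : kA t z = t ^ m • z) : kB t z = t⁻¹ ^ m • z := by
  have ht := NeZero.ne t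
  have h := congrArg (kB t) h3
  rw [kB_kA ht, map_smul] at h
  have h2 := congrArg (fun x => t⁻¹ ^ m • x) h
  simp only [smul_smul] at h2
  rw [← mul_pow, inv_mul_cancel₀ ht, one_pow, one_smul] at h2
  exact h2.symm

theorem g_closed (m j : ℕ) : (∑ i ∈ Finset.range (j + 1), (t ^ (m + i) - t⁻¹ ^ (m + i))) *
    ((t - 1) * t ^ (m + j)) = (t ^ (j + 1) - 1) * (t ^ (2 * m + j) - 1) := by
  have ht := NeZero.ne t
  induction j with
  | zero =>
    simp only [zero_add, Finset.sum_range_one, add_zero, pow_one]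
    have : t⁻¹ ^ m * t ^ m = 1 := by rw [← mul_pow, inv_mul_cancel₀ ht, one_pow]
    have h2 : t ^ (2 * m) = t ^ m * t ^ m := by ring
    rw [h2]
    linear_combination (1 - t) * this
  | succ j ih =>
    rw [Finset.sum_range_succ]
    have : t⁻¹ ^ (m + (j + 1)) * t ^ (m + (j + 1)) = 1 := by
      rw [← mul_pow, inv_mul_cancel₀ ht, one_pow]
    linear_combination t * ih + (1 - t) * this

theorem eA_ad_pow {z : U t} {m : ℕ} (h2 : eA t z = 0) (h3 : kA t z = t ^ m • z) (k : ℕ) :
    eA t ((ad t ^ (k + 1)) z) =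
      (∑ i ∈ Finset.range (k + 1), (t ^ (m + i) - t⁻¹ ^ (m + i))) • (ad t ^ k) z := by
  induction k with
  | zero =>
    simp only [zero_add, pow_one, Finset.sum_range_one, add_zero, pow_zero, Module.End.one_apply]
    rw [eA_ad, h2, map_zero, h3, kB_of_kA h3, zero_add, sub_smul]
  | succ k ih =>
    rw [pow_succ', Module.End.mul_apply, eA_ad, ih, kA_ad_pow h3, kB_of_kA (kA_ad_pow h3 _),
      Finset.sum_range_succ (n := k + 1), add_smul, sub_smul, map_smul, ← Module.End.mul_apply,
      ← pow_succ']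
    abel

/-- The rank one argument: a homogeneous element killed by both skew derivations of the first
generator, of positive weight, vanishes. -/
theorem sl2_vanish (hroot : ∀ n : ℕ, 0 < n → t ^ n ≠ 1) {z : U t} {m : ℕ} (hm : 1 ≤ m)
    (h1 : dA t z = 0) (h2 : eA t z = 0) (h3 : kA t z = t ^ m • z) : z = 0 := by
  obtain ⟨n, hn⟩ := ad_nil (mem_UP_of_dA hroot h1)
  induction n with
  | zero => simpa using hn
  | succ n ih =>
    apply ih
    have h := eA_ad_pow h2 h3 n
    rw [hn, map_zero] at h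
    refine (smul_eq_zero.mp h.symm).resolve_left ?_
    intro h0
    have := g_closed (t := t) m n
    rw [h0, zero_mul] at this
    rcases mul_eq_zero.mp this.symm with h' | h'
    · exact hroot (n + 1) (Nat.succ_pos _) (sub_eq_zero.mp h')
    · exact hroot (2 * m + n) (by omega) (sub_eq_zero.mp h')

end Pool.Helper137.UPlus
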