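import Pool.Agent.Helper137_UPlus.Antipode

set_option linter.unusedSimpArgs false
set_option linter.unusedSectionVars false

namespace Pool.Helper137.UPlus

open scoped TensorProduct

variable {K : Type*} [Field K] {t : K} [NeZero t]

/-- In minimal degree an element killed by the left skew derivations is primitive. -/
theorem cop_primitive {N : ℕ} (hN : 1 ≤ N)
    (ih : ∀ M < N, ∀ r s, r + s = M → 1 ≤ M → ∀ u : U t, dA t (pr t r s u) = 0 →
      dB t (pr t r s u) = 0 → pr t r s u = 0)
    {r s : ℕ} (hrs : r + s = N) (u : U t) (h1 : dA t (pr t r s u) = 0)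
    (h2 : dB t (pr t r s u) = 0) :
    cop t (pr t r s u) = (pr t r s u) ⊗ₜ 1 + 1 ⊗ₜ (pr t r s u) := by
  set x := pr t r s u with hx
  have hprx : ∀ p q, pr t p q x = if p = r ∧ q = s then x else 0 := fun p q => pr_pr r s p q u
  rw [← sub_eq_zero]
  apply ctr_sep
  intro φ
  apply eq_zero_of_pr
  intro p q
  have e1 : ctr t φ (cop t x - (x ⊗ₜ 1 + 1 ⊗ₜ x)) = rho t φ x - φ 1 • x - φ x • 1 := by
    rw [map_sub, map_add, ctr_tmul, ctr_tmul, rho, LinearMap.comp_apply, sub_sub]
  rw [e1, map_sub, map_sub, map_smul, map_smul, hprx, pr_one]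
  by_cases h0 : p = 0 ∧ q = 0
  · obtain ⟨rfl, rfl⟩ := h0
    rw [pr_rho_zero, if_neg (by omega), if_pos (by simp)]
    simp
  rw [if_neg (show ¬ (p = 0 ∧ q = 0) from h0), smul_zero, sub_zero]
  by_cases hpq : r + s ≤ p + q
  · rw [pr_rho_top φ u r s p q hpq]
    by_cases h : p = r ∧ q = s
    · rw [if_pos h, if_pos h, sub_self]
    · rw [if_neg h, if_neg h, smul_zero, sub_self]
  · rw [if_neg (by omega), smul_zero, sub_zero]
    refine ih (p + q) (by omega) p q rfl (by omega) (rho t φ x) ?_ ?_
    · rcases p with _ | p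
      · exact dA_pr_zero _ _
      · rw [dA_pr_succ, dA_rho, h1, map_zero, map_zero]
    · rcases q with _ | q
      · exact dB_pr_zero _ _
      · rw [dB_pr_succ, dB_rho, h2, map_zero, map_zero]

/-- Nondegeneracy: a homogeneous element of positive degree which is killed by both left skew
derivations vanishes. -/
theorem nondeg (hroot : ∀ n : ℕ, 0 < n → t ^ n ≠ 1) (N : ℕ) : ∀ r s, r + s = N → 1 ≤ N →
    ∀ u : U t, dA t (pr t r s u) = 0 → dB t (pr t r s u) = 0 → pr t r s u = 0 := by
  have ht := NeZero.ne t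
  induction N using Nat.strong_induction_on with
  | _ N ih =>
  intro r s hrs hN u h1 h2
  -- the right skew derivations vanish too
  by_cases hr1 : r = 1 ∧ s = 0
  · obtain ⟨rfl, rfl⟩ := hr1
    obtain ⟨c, hc⟩ := pr_one_zero' u
    rw [hc, map_smul, dA_a] at h1
    rw [hc]
    have : c • a t = (c • (1 : U t)) * a t := by rw [smul_mul_assoc, one_mul]
    rw [this, h1, zero_mul]
  by_cases hs1 : r = 0 ∧ s = 1
  · obtain ⟨rfl, rfl⟩ := hs1
    obtain ⟨c, hc⟩ := pr_one_zero' (tau t u)
    have hc' : pr t 0 1 u = c • b t := by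
      rw [pr_tau] at hc
      have := congrArg (tau t) hc
      rwa [tau_tau, map_smul, tau_a] at this
    rw [hc', map_smul, dB_b] at h2
    rw [hc']
    have : c • b t = (c • (1 : U t)) * b t := by rw [smul_mul_assoc, one_mul]
    rw [this, h2, zero_mul]
  have h3 : eA t (pr t r s u) = 0 := by
    rcases r with _ | r
    · exact eA_pr_zero _ _
    · have e : eA t (pr t (r + 1) s u) = pr t r s (eA t u) := eA_pr_succ r s u
      rw [e]
      refine ih (r + s) (by omega) r s rfl (by omega) _ ?_ ?_
      · rw [← e, dA_eA, h1, map_zero]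
      · rw [← e, dB_eA, h2, map_zero]
  have h4 : eB t (pr t r s u) = 0 := by
    rcases s with _ | s
    · exact eB_pr_zero _ _
    · have e : eB t (pr t r (s + 1) u) = pr t r s (eB t u) := eB_pr_succ r s u
      rw [e]
      refine ih (r + s) (by omega) r s rfl (by omega) _ ?_ ?_
      · rw [← e, dA_eB, h1, map_zero]
      · rw [← e, dB_eB, h2, map_zero]
  rcases lt_trichotomy r s with hlt | heq | hgt
  · -- weight negative
    obtain ⟨m, rfl⟩ := Nat.exists_eq_add_of_lt hlt
    have hz : tau t (pr t r (r + m + 1) u) = 0 := by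
      refine sl2_vanish hroot (m := m + 1) (by omega) ?_ ?_ ?_
      · rw [dA_tau, h2, map_zero]
      · rw [eA_tau, h4, map_zero]
      · rw [← tau_kB, kB_pr, map_smul]
        congr 1
        have : t ^ r * t⁻¹ ^ r = 1 := by rw [← mul_pow, mul_inv_cancel₀ ht, one_pow]
        rw [show r + m + 1 = r + (m + 1) by ring, pow_add, mul_right_comm, this, one_mul]
    rw [← tau_tau (pr t r (r + m + 1) u), hz, map_zero]
  · subst heq
    have hcop := cop_primitive hN ih hrs u h1 h2
    have hm := congrArg (mS t) hcop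
    rw [mS_cop, map_add, mS_tmul, mS_tmul, anti_one, one_mul, mul_one, pr_pr,
      if_neg (by omega), anti_pr, cf_diag] at hm
    set x := pr t r r u with hx
    have hrev : rev t x = -(t ^ r • x) := by
      have h5 := congrArg (fun z => t ^ r • z) hm
      simp only [smul_add, smul_smul, smul_zero] at h5
      rw [← mul_pow, mul_inv_cancel₀ ht, one_pow, one_smul] at h5
      exact eq_neg_of_add_eq_zero_left h5.symm
    have h6 : x = (t ^ r * t ^ r) • x := by
      conv_lhs => rw [← rev_rev x, hrev, map_neg, map_smul, hrev, smul_neg, neg_neg, smul_smul]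
    have h7 : (t ^ (2 * r) - 1) • x = 0 := by
      rw [sub_smul, one_smul, two_mul, pow_add, ← h6, sub_self]
    exact (smul_eq_zero.mp h7).resolve_left (sub_ne_zero.mpr (hroot _ (by omega)))
  · obtain ⟨m, rfl⟩ := Nat.exists_eq_add_of_lt hgt
    refine sl2_vanish hroot (m := m + 1) (by omega) h1 h3 ?_
    rw [kA_pr]
    congr 1
    have : t ^ s * t⁻¹ ^ s = 1 := by rw [← mul_pow, mul_inv_cancel₀ ht, one_pow]
    rw [show s + m + 1 = s + (m + 1) by ring, pow_add, mul_right_comm, this, one_mul]

end Pool.Helper137.UPlus
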