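import Pool.Agent.Helper137_UPlus.Basic

set_option linter.unusedSimpArgs false
set_option linter.unnecessarySeqFocus false

namespace Pool.Helper137.UPlus

open MulOpposite

section Gen

variable {K R : Type*} [Field K] [Ring R] [Algebra K R]

theorem serre_op (c : K) (x y : R) : serre c (op x) (op y) = - op (serre c x y) := by
  simp only [serre, ← op_pow, ← op_mul, ← op_smul, ← op_sub, ← op_add, ← op_neg]
  congr 1
  simp only [mul_assoc]
  abel

/-- The parameter `t + 1 + t⁻¹`. -/
def cc (t : K) : K := t + 1 + t⁻¹

theorem cc_mul (t : K) (ht : t ≠ 0) : cc t * t = t ^ 2 + t + 1 := by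
  unfold cc; field_simp

/-- Serre relation for the upper triangular matrices. -/
theorem serre_mat1 (t : K) (ht : t ≠ 0) (x y : R) (h : serre (cc t) x y = 0) :
    serre (cc t) (!![t • x, 1; 0, x] : Matrix (Fin 2) (Fin 2) R) !![t⁻¹ • y, 0; 0, y] = 0 := by
  have h' := h
  have h2 : serre (cc t) (t • x) (t⁻¹ • y) = 0 := by rw [serre_smul, h, smul_zero]
  unfold serre at h h2 ⊢
  simp only [pow_succ, pow_zero, one_mul, Matrix.mul_fin_two] at h h2 ⊢
  ext i j
  fin_cases i <;> fin_cases j
  · simp only [Matrix.sub_apply, Matrix.add_apply, Matrix.smul_apply]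
    simp
    simpa using h2
  · simp only [Matrix.sub_apply, Matrix.add_apply, Matrix.smul_apply]
    simp
    simp only [mul_assoc, smul_mul_assoc, mul_smul_comm, smul_smul, mul_add, add_mul, smul_add]
    unfold cc
    match_scalars <;> field_simp <;> ring
  · simp
  · simp only [Matrix.sub_apply, Matrix.add_apply, Matrix.smul_apply]
    simp
    simpa using h

theorem serre_mat2 (t : K) (ht : t ≠ 0) (x y : R) (h : serre (cc t) y x = 0) :
    serre (cc t) (!![t⁻¹ • y, 0; 0, y] : Matrix (Fin 2) (Fin 2) R) !![t • x, 1; 0, x] = 0 := by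
  have h' := h
  have h2 : serre (cc t) (t⁻¹ • y) (t • x)  = 0 := by rw [serre_smul, h, smul_zero]
  unfold serre at h h2 ⊢
  simp only [pow_succ, pow_zero, one_mul, Matrix.mul_fin_two] at h h2 ⊢
  ext i j
  fin_cases i <;> fin_cases j
  · simp only [Matrix.sub_apply, Matrix.add_apply, Matrix.smul_apply]
    simp
    simpa using h2
  · simp only [Matrix.sub_apply, Matrix.add_apply, Matrix.smul_apply]
    simp
    simp only [mul_assoc, smul_mul_assoc, mul_smul_comm, smul_smul, mul_add, add_mul, smul_add]
    unfold cc
    match_scalars <;> field_simp <;> ring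
  · simp
  · simp only [Matrix.sub_apply, Matrix.add_apply, Matrix.smul_apply]
    simp
    simpa using h

end Gen

section Maps

variable {K : Type*} [Field K] (t : K)

/-- The algebra with parameter `c = t + 1 + t⁻¹`. -/
abbrev U (t : K) : Type _ := UC K (cc t)

/-- The first generator. -/
abbrev a : U t := A (cc t)
/-- The second generator. -/
abbrev b : U t := B (cc t)

/-- The automorphism `a ↦ t a`, `b ↦ t⁻¹ b`. -/
def kA : U t →ₐ[K] U t :=
  lift (t • a t) (t⁻¹ • b t) (by rw [serre_smul, serre_AB, smul_zero])
    (by rw [serre_smul, serre_BA, smul_zero])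

/-- The automorphism `a ↦ t⁻¹ a`, `b ↦ t b`. -/
def kB : U t →ₐ[K] U t :=
  lift (t⁻¹ • a t) (t • b t) (by rw [serre_smul, serre_AB, smul_zero])
    (by rw [serre_smul, serre_BA, smul_zero])

/-- The automorphism exchanging the generators. -/
def tau : U t →ₐ[K] U t := lift (b t) (a t) (serre_BA _) (serre_AB _)

/-- The anti-automorphism fixing the generators, as a homomorphism to the opposite algebra. -/
def revHom : U t →ₐ[K] (U t)ᵐᵒᵖ :=
  lift (op (a t)) (op (b t)) (by rw [serre_op, serre_AB, op_zero, neg_zero])
    (by rw [serre_op, serre_BA, op_zero, neg_zero])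

/-- The anti-automorphism fixing the generators. -/
def rev : U t →ₗ[K] U t := (MulOpposite.opLinearEquiv K).symm.toLinearMap ∘ₗ (revHom t).toLinearMap

variable {t}

@[simp] theorem kA_a : kA t (a t) = t • a t := lift_A _ _ _ _
@[simp] theorem kA_b : kA t (b t) = t⁻¹ • b t := lift_B _ _ _ _
@[simp] theorem kB_a : kB t (a t) = t⁻¹ • a t := lift_A _ _ _ _
@[simp] theorem kB_b : kB t (b t) = t • b t := lift_B _ _ _ _
@[simp] theorem tau_a : tau t (a t) = b t := lift_A _ _ _ _
@[simp] theorem tau_b : tau t (b t) = a t := lift_B _ _ _ _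

theorem rev_apply (u : U t) : rev t u = unop (revHom t u) := rfl

@[simp] theorem rev_one : rev t (1 : U t) = 1 := by rw [rev_apply, map_one, unop_one]
@[simp] theorem rev_a : rev t (a t) = a t := by
  rw [rev_apply, revHom, lift_A, unop_op]
@[simp] theorem rev_b : rev t (b t) = b t := by
  rw [rev_apply, revHom, lift_B, unop_op]
theorem rev_mul (u v : U t) : rev t (u * v) = rev t v * rev t u := by
  rw [rev_apply, map_mul, unop_mul]; rfl

theorem kA_kB (ht : t ≠ 0) (u : U t) : kA t (kB t u) = u := by
  have : (kA t).toLinearMap ∘ₗ (kB t).toLinearMap = LinearMap.id := by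
    apply lin_ext
    · simp
    · intro u hu
      simp only [LinearMap.comp_apply, AlgHom.toLinearMap_apply, LinearMap.id_apply] at hu ⊢
      rw [map_mul, map_mul, hu, kB_a, map_smul, kA_a, smul_smul, inv_mul_cancel₀ ht, one_smul]
    · intro u hu
      simp only [LinearMap.comp_apply, AlgHom.toLinearMap_apply, LinearMap.id_apply] at hu ⊢
      rw [map_mul, map_mul, hu, kB_b, map_smul, kA_b, smul_smul, mul_inv_cancel₀ ht, one_smul]
  exact LinearMap.congr_fun this u

theorem kB_kA (ht : t ≠ 0) (u : U t) : kB t (kA t u) = u := by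
  have : (kB t).toLinearMap ∘ₗ (kA t).toLinearMap = LinearMap.id := by
    apply lin_ext
    · simp
    · intro u hu
      simp only [LinearMap.comp_apply, AlgHom.toLinearMap_apply, LinearMap.id_apply] at hu ⊢
      rw [map_mul, map_mul, hu, kA_a, map_smul, kB_a, smul_smul, mul_inv_cancel₀ ht, one_smul]
    · intro u hu
      simp only [LinearMap.comp_apply, AlgHom.toLinearMap_apply, LinearMap.id_apply] at hu ⊢
      rw [map_mul, map_mul, hu, kA_b, map_smul, kB_b, smul_smul, inv_mul_cancel₀ ht, one_smul]
  exact LinearMap.congr_fun this u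

theorem tau_tau (u : U t) : tau t (tau t u) = u := by
  have : (tau t).toLinearMap ∘ₗ (tau t).toLinearMap = LinearMap.id := by
    apply lin_ext
    · simp
    · intro u hu
      simp only [LinearMap.comp_apply, AlgHom.toLinearMap_apply, LinearMap.id_apply] at hu ⊢
      rw [map_mul, map_mul, hu, tau_a, tau_b]
    · intro u hu
      simp only [LinearMap.comp_apply, AlgHom.toLinearMap_apply, LinearMap.id_apply] at hu ⊢
      rw [map_mul, map_mul, hu, tau_b, tau_a]
  exact LinearMap.congr_fun this u

theorem tau_kA (u : U t) : tau t (kA t u) = kB t (tau t u) := by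
  have : (tau t).toLinearMap ∘ₗ (kA t).toLinearMap = (kB t).toLinearMap ∘ₗ (tau t).toLinearMap := by
    apply lin_ext
    · simp
    · intro u hu
      simp only [LinearMap.comp_apply, AlgHom.toLinearMap_apply] at hu ⊢
      rw [map_mul, map_mul, map_mul, map_mul, hu, kA_a, map_smul, tau_a, kB_b]
    · intro u hu
      simp only [LinearMap.comp_apply, AlgHom.toLinearMap_apply] at hu ⊢
      rw [map_mul, map_mul, map_mul, map_mul, hu, kA_b, map_smul, tau_b, kB_a]
  exact LinearMap.congr_fun this u

theorem tau_kB (u : U t) : tau t (kB t u) = kA t (tau t u) := by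
  have h := tau_kA (tau t u)
  rw [tau_tau] at h
  rw [← h, tau_tau]

/-- Right-multiplication version of the extension principle is obtained from `rev`. -/
theorem rev_rev (u : U t) : rev t (rev t u) = u := by
  have key : ∀ w v : U t, rev t (rev t v) = v → rev t (rev t (w * v)) = rev t (rev t w) * v := by
    intro w v hv
    rw [rev_mul, rev_mul, hv]
  have : (rev t) ∘ₗ (rev t) = LinearMap.id := by
    apply lin_ext
    · simp
    · intro u hu
      simp only [LinearMap.comp_apply, LinearMap.id_apply] at hu ⊢
      rw [key _ _ hu, rev_a, rev_a]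
    · intro u hu
      simp only [LinearMap.comp_apply, LinearMap.id_apply] at hu ⊢
      rw [key _ _ hu, rev_b, rev_b]
  exact LinearMap.congr_fun this u

theorem rev_kA (u : U t) : rev t (kA t u) = kA t (rev t u) := by
  have : (rev t) ∘ₗ (kA t).toLinearMap = (kA t).toLinearMap ∘ₗ (rev t) := by
    apply lin_ext
    · simp
    · intro u hu
      simp only [LinearMap.comp_apply, AlgHom.toLinearMap_apply] at hu ⊢
      rw [map_mul, rev_mul, rev_mul, map_mul, hu, kA_a, rev_a, kA_a, map_smul, rev_a]
    · intro u hu
      simp only [LinearMap.comp_apply, AlgHom.toLinearMap_apply] at hu ⊢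
      rw [map_mul, rev_mul, rev_mul, map_mul, hu, kA_b, rev_b, kA_b, map_smul, rev_b]
  exact LinearMap.congr_fun this u

theorem rev_tau (u : U t) : rev t (tau t u) = tau t (rev t u) := by
  have : (rev t) ∘ₗ (tau t).toLinearMap = (tau t).toLinearMap ∘ₗ (rev t) := by
    apply lin_ext
    · simp
    · intro u hu
      simp only [LinearMap.comp_apply, AlgHom.toLinearMap_apply] at hu ⊢
      rw [map_mul, rev_mul, rev_mul, map_mul, hu, tau_a, rev_a, tau_a, rev_b]
    · intro u hu
      simp only [LinearMap.comp_apply, AlgHom.toLinearMap_apply] at hu ⊢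
      rw [map_mul, rev_mul, rev_mul, map_mul, hu, tau_b, rev_b, tau_b, rev_a]
  exact LinearMap.congr_fun this u

theorem rev_kB (u : U t) : rev t (kB t u) = kB t (rev t u) := by
  have h := rev_kA (tau t u)
  have h2 := congrArg (tau t) h
  rw [← rev_tau, tau_kA, tau_tau, tau_kA, ← rev_tau, tau_tau] at h2
  exact h2

end Maps

end Pool.Helper137.UPlus
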